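import Pool.Agent.H15.LE.Base

/-!
PROJECT LE, Fourier block, job LF-Brg. From `ENNReal` to real functions.

PROOF. `cv_ofReal`: all terms are nonnegative (`ENNReal.ofReal_tsum_of_nonneg`, `ENNReal.ofReal_mul`).
`Σ gt ≠ ⊤` gives `gt d p x ≠ ⊤`, hence `tau d p x ≠ ⊤` and `gt d p x = ofReal (gr d p x)`, `gr` summable
(`ENNReal.summable_toReal`). To iterate one needs `cr f g ≥ 0` and summable: `0 ≤ f, g`; summability of `cr` may be
used as a hypothesis `hs` (it is proved in `Conv.lean`).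
`eq_real`: `Σ'_b X b.1 * p * t (x - b.1 - step b.2) = Σ'_y X y * sh p t (x - y)`: `Summable.tsum_prod` with the
summability of `(y, s) ↦ X y * p * t (x - y - step s)` (`|t| ≤ C`, `X` summable, `Dir d` finite), `tsum_fintype`.
-/

namespace H15LE

open H5DF H95LBD H95LE MeasureTheory

variable {d : ℕ}

lemma tau_ne_top {p : ℝ} (h : ∑' x, gt d p x ≠ ⊤) (x : V d) : tau d p x ≠ ⊤ := by
  intro ht
  refine ENNReal.ne_top_of_tsum_ne_top h x ?_
  unfold gt
  rw [ht]
  refine ENNReal.mul_top ?_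
  have h1 : w2 x ≠ 0 := Nat.one_le_iff_ne_zero.1 (one_le_w2 x)
  exact_mod_cast h1

lemma tr_nonneg (p : ℝ) (x : V d) : 0 ≤ tr d p x := ENNReal.toReal_nonneg

lemma gr_nonneg (p : ℝ) (x : V d) : 0 ≤ gr d p x := mul_nonneg (Nat.cast_nonneg _) (tr_nonneg p x)

lemma tau_eq {p : ℝ} (h : ∑' x, gt d p x ≠ ⊤) (x : V d) :
    tau d p x = ENNReal.ofReal (tr d p x) :=
  (ENNReal.ofReal_toReal (tau_ne_top h x)).symm

lemma gt_eq {p : ℝ} (h : ∑' x, gt d p x ≠ ⊤) (x : V d) :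
    gt d p x = ENNReal.ofReal (gr d p x) := by
  unfold gt gr
  rw [ENNReal.ofReal_mul (Nat.cast_nonneg _), ENNReal.ofReal_natCast, ← tau_eq h]

lemma Brg_gr_eq (p : ℝ) (x : V d) : gr d p x = (gt d p x).toReal := by
  unfold gt gr tr
  rw [ENNReal.toReal_mul, ENNReal.toReal_natCast]

lemma summable_gr {p : ℝ} (h : ∑' x, gt d p x ≠ ⊤) : Summable (gr d p) :=
  (ENNReal.summable_toReal h).congr fun x => (Brg_gr_eq p x).symm

lemma ws_tr {p : ℝ} (h : ∑' x, gt d p x ≠ ⊤) : WS (tr d p) := by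
  refine (summable_gr h).congr fun x => ?_
  rw [abs_of_nonneg (tr_nonneg p x)]
  rfl

lemma cv_ofReal {f g : V d → ℝ} (hf : ∀ x, 0 ≤ f x) (hg : ∀ x, 0 ≤ g x)
    (hs : ∀ x, Summable fun y => f y * g (x - y)) :
    cv (fun x => ENNReal.ofReal (f x)) (fun x => ENNReal.ofReal (g x)) =
      fun x => ENNReal.ofReal (cr f g x) := by
  funext x
  unfold cv cr
  rw [ENNReal.ofReal_tsum_of_nonneg (fun y => mul_nonneg (hf y) (hg (x - y))) (hs x)]
  exact tsum_congr fun y => (ENNReal.ofReal_mul (hf y)).symm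

lemma cr_nonneg {f g : V d → ℝ} (hf : ∀ x, 0 ≤ f x) (hg : ∀ x, 0 ≤ g x) (x : V d) :
    0 ≤ cr f g x :=
  tsum_nonneg fun y => mul_nonneg (hf y) (hg (x - y))

lemma jc_ofReal {p : ℝ} (h0 : 0 ≤ p) {f : V d → ℝ} (hf : ∀ x, 0 ≤ f x) :
    jc p (fun x => ENNReal.ofReal (f x)) = fun x => ENNReal.ofReal (sh p f x) := by
  funext x
  unfold jc sh
  rw [ENNReal.ofReal_sum_of_nonneg fun s _ => mul_nonneg h0 (hf _)]
  exact Finset.sum_congr rfl fun s _ => (ENNReal.ofReal_mul h0).symm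

lemma Brg_gt_fun {p : ℝ} (h : ∑' x, gt d p x ≠ ⊤) :
    gt d p = fun x => ENNReal.ofReal (gr d p x) :=
  funext fun x => gt_eq h x

theorem g4_eq {p : ℝ} (h : ∑' x, gt d p x ≠ ⊤)
    (hs : ∀ f g : V d → ℝ, Summable f → Summable g → Summable (cr f g)) 
    (hs' : ∀ f g : V d → ℝ, Summable f → Summable g → ∀ x, Summable fun y => f y * g (x - y)) :
    g4 d p = ENNReal.ofReal (cr (gr d p) (cr (gr d p) (cr (gr d p) (gr d p))) 0) := by
  have n1 := fun x => gr_nonneg (d := d) p x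
  have n2 := fun x => cr_nonneg n1 n1 x
  have n3 := fun x => cr_nonneg n1 n2 x
  have s1 := summable_gr h
  have s2 := hs _ _ s1 s1
  have s3 := hs _ _ s1 s2
  unfold g4
  rw [Brg_gt_fun h, cv_ofReal n1 n1 (hs' _ _ s1 s1), cv_ofReal n1 n2 (hs' _ _ s1 s2),
    cv_ofReal n1 n3 (hs' _ _ s1 s3)]

theorem jggg_eq {p : ℝ} (h0 : 0 ≤ p) (h : ∑' x, gt d p x ≠ ⊤)
    (hs : ∀ f g : V d → ℝ, Summable f → Summable g → Summable (cr f g)) 
    (hs' : ∀ f g : V d → ℝ, Summable f → Summable g → ∀ x, Summable fun y => f y * g (x - y))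
    (x : V d) :
    jggg d p x = ENNReal.ofReal (sh p (cr (gr d p) (cr (gr d p) (gr d p))) x) := by
  have n1 := fun x => gr_nonneg (d := d) p x
  have n2 := fun x => cr_nonneg n1 n1 x
  have n3 := fun x => cr_nonneg n1 n2 x
  have s1 := summable_gr h
  have s2 := hs _ _ s1 s1
  unfold jggg
  rw [Brg_gt_fun h, cv_ofReal n1 n1 (hs' _ _ s1 s1), cv_ofReal n1 n2 (hs' _ _ s1 s2),
    jc_ofReal h0 n3]

theorem eq_real {p : ℝ} {X : V d → ℝ} (hI : Inp d p X) :
    tr d p = fun x => X x + cr X (sh p (tr d p)) x := by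
  funext x
  have hst : Summable (tr d p) := (ws_tr hI.fin).sum
  have hC : ∀ y, tr d p y ≤ ∑' z, tr d p z := fun y =>
    hst.le_tsum y fun z _ => tr_nonneg p z
  have hC0 : 0 ≤ ∑' z, tr d p z := tsum_nonneg fun z => tr_nonneg p z
  have hpC : 0 ≤ p * ∑' z, tr d p z := mul_nonneg hI.p0 hC0
  have hsum : Summable fun b : V d × Dir d =>
      X b.1 * p * tr d p (x - b.1 - step b.2) := by
    have h1 : Summable fun b : V d × Dir d => |X b.1| * (p * ∑' z, tr d p z) :=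
      Summable.mul_of_nonneg (g := fun _ : Dir d => p * ∑' z, tr d p z) hI.sX.sum.abs
        Summable.of_finite (fun y => abs_nonneg (X y)) (fun _ => hpC)
    refine Summable.of_norm_bounded h1 fun b => ?_
    rw [Real.norm_eq_abs, mul_assoc, abs_mul, abs_of_nonneg (mul_nonneg hI.p0 (tr_nonneg p _))]
    exact mul_le_mul_of_nonneg_left (mul_le_mul_of_nonneg_left (hC _) hI.p0) (abs_nonneg _)
  have h2 : ∑' b : V d × Dir d, X b.1 * p * tr d p (x - b.1 - step b.2) =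
      cr X (sh p (tr d p)) x := by
    rw [hsum.tsum_prod]
    unfold cr sh
    refine tsum_congr fun y => ?_
    rw [tsum_fintype, Finset.mul_sum]
    exact Finset.sum_congr rfl fun s _ => mul_assoc _ _ _
  have h3 := hI.eq x
  change tr d p x = X x + ∑' b : V d × Dir d, X b.1 * p * tr d p (x - b.1 - step b.2) at h3
  rw [h3, h2]

end H15LE
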