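import Pool.Agent.H15.LE.Base

/-!
PROJECT LE, Fourier block, job LF-Conv. Convolution, transform and multiplication by coordinates.

PROOF. `(y, z) ↦ f y * g z` is summable (`Summable.mul_of_nonneg`, `summable_mul_of_summable_norm`); with the
equivalence `(y, x) ↦ (y, x - y)` and `ch k x = ch k y * ch k (x - y)` one gets `ft_cr`
(`tsum_mul_tsum_of_summable_norm`, `Equiv.tsum_eq`, `Summable.tsum_prod`, `Summable.tsum_comm`).
`mx_cr`: `x_j = y_j + (x - y)_j`, the two series are summable. The formulas for the transforms follow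
(`ft_add`).
-/

namespace H15LE

open H5DF H95LBD H95LE MeasureTheory

variable {d : ℕ}

/-- `(x, y) ↦ (y, x - y)`. -/
def Conv_e : V d × V d ≃ V d × V d where
  toFun q := (q.2, q.1 - q.2)
  invFun q := (q.1 + q.2, q.1)
  left_inv q := by
    ext1
    · simp
    · rfl
  right_inv q := by
    ext1
    · rfl
    · simp

lemma Conv_s0 {f g : V d → ℝ} (hf : Summable f) (hg : Summable g) :
    Summable fun q : V d × V d => f q.1 * g q.2 :=
  summable_mul_of_summable_norm hf.norm hg.norm

lemma Conv_s1 {f g : V d → ℝ} (hf : Summable f) (hg : Summable g) :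
    Summable fun q : V d × V d => f q.2 * g (q.1 - q.2) :=
  (Conv_e (d := d)).summable_iff.2 (Conv_s0 hf hg)

lemma summable_cr_term {f g : V d → ℝ} (hf : Summable f) (hg : Summable g) (x : V d) :
    Summable fun y => f y * g (x - y) :=
  (Conv_s1 hf hg).comp_injective (i := fun y : V d => (x, y)) (fun a b h => (Prod.mk.inj h).2)

theorem summable_cr {f g : V d → ℝ} (hf : Summable f) (hg : Summable g) : Summable (cr f g) :=
  (Conv_s1 hf hg).prod

lemma Conv_n1 (k : Fin d → ℝ) {h : V d → ℝ} (hh : Summable h) :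
    Summable fun x => ‖(h x : ℂ) * ch k x‖ := by
  have e : (fun x => ‖(h x : ℂ) * ch k x‖) = fun x => |h x| := by
    funext x
    rw [norm_mul, norm_ch, mul_one, Complex.norm_real, Real.norm_eq_abs]
  rw [e]
  exact hh.abs

/-- Abstract form: product of two sums as a double sum. -/
lemma Conv_prod (F G : V d → ℂ) (hF : Summable fun x => ‖F x‖) (hG : Summable fun x => ‖G x‖) :
    (∑' x, F x) * (∑' x, G x) = ∑' x : V d, ∑' y : V d, F y * G (x - y) := by
  have s0 : Summable fun q : V d × V d => F q.1 * G q.2 := summable_mul_of_summable_norm hF hG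
  have s1 : Summable fun q : V d × V d => F q.2 * G (q.1 - q.2) :=
    (Conv_e (d := d)).summable_iff.2 s0
  have e0 : (∑' x, F x) * (∑' x, G x) = ∑' q : V d × V d, F q.1 * G q.2 :=
    tsum_mul_tsum_of_summable_norm hF hG
  have e1 : (∑' q : V d × V d, F q.2 * G (q.1 - q.2)) = ∑' q : V d × V d, F q.1 * G q.2 :=
    (Conv_e (d := d)).tsum_eq (fun q : V d × V d => F q.1 * G q.2)
  rw [e0, ← e1]
  exact s1.tsum_prod

theorem ft_cr {f g : V d → ℝ} (hf : Summable f) (hg : Summable g) (k : Fin d → ℝ) :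
    ft (cr f g) k = ft f k * ft g k := by
  have h0 := Conv_prod (fun x => (f x : ℂ) * ch k x) (fun x => (g x : ℂ) * ch k x)
    (Conv_n1 k hf) (Conv_n1 k hg)
  have h1 : ft f k * ft g k = ∑' x : V d, ∑' y : V d,
      ((f y : ℂ) * ch k y) * ((g (x - y) : ℂ) * ch k (x - y)) := h0
  rw [h1]
  have h2 : ∀ x : V d, ((cr f g x : ℝ) : ℂ) * ch k x = ∑' y : V d,
      ((f y : ℂ) * ch k y) * ((g (x - y) : ℂ) * ch k (x - y)) := by
    intro x
    have e3 : ((cr f g x : ℝ) : ℂ) = ∑' y : V d, ((f y * g (x - y) : ℝ) : ℂ) :=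
      Complex.ofReal_tsum _
    rw [e3, ← tsum_mul_right]
    refine tsum_congr fun y => ?_
    have e2 : ch k x = ch k y * ch k (x - y) := by
      rw [← ch_add, add_sub_cancel]
    rw [e2, Complex.ofReal_mul]
    ring
  exact tsum_congr h2

theorem mx_cr {f g : V d → ℝ} (j : Fin d) (hf : Summable f) (hf1 : Summable (mx j f))
    (hg : Summable g) (hg1 : Summable (mx j g)) :
    mx j (cr f g) = fun x => cr (mx j f) g x + cr f (mx j g) x := by
  funext x
  have h1 : cr (mx j f) g x + cr f (mx j g) x =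
      ∑' y, (mx j f y * g (x - y) + f y * mx j g (x - y)) :=
    ((summable_cr_term hf1 hg x).tsum_add (summable_cr_term hf hg1 x)).symm
  rw [h1]
  unfold mx cr
  rw [← tsum_mul_left]
  refine tsum_congr fun y => ?_
  rw [Pi.sub_apply]
  push_cast
  ring

lemma Conv_add (j : Fin d) (f g : V d → ℝ) :
    mx j (fun x => f x + g x) = fun x => mx j f x + mx j g x := by
  funext x
  unfold mx
  ring

lemma Conv_s2 {f g : V d → ℝ} (j : Fin d) (hf : Summable f) (hf1 : Summable (mx j f))
    (hg : Summable g) (hg1 : Summable (mx j g)) : Summable (mx j (cr f g)) := by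
  rw [mx_cr j hf hf1 hg hg1]
  exact (summable_cr hf1 hg).add (summable_cr hf hg1)

theorem ft_mx_cr {f g : V d → ℝ} (j : Fin d) (hf : Summable f) (hf1 : Summable (mx j f))
    (hg : Summable g) (hg1 : Summable (mx j g)) (k : Fin d → ℝ) :
    ft (mx j (cr f g)) k = ft (mx j f) k * ft g k + ft f k * ft (mx j g) k := by
  rw [mx_cr j hf hf1 hg hg1, ft_add (summable_cr hf1 hg) (summable_cr hf hg1),
    ft_cr hf1 hg, ft_cr hf hg1]

theorem ft_mx2_cr {f g : V d → ℝ} (j : Fin d) (hf : Summable f) (hf1 : Summable (mx j f))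
    (hf2 : Summable (mx j (mx j f))) (hg : Summable g) (hg1 : Summable (mx j g))
    (hg2 : Summable (mx j (mx j g))) (k : Fin d → ℝ) :
    ft (mx j (mx j (cr f g))) k =
      ft (mx j (mx j f)) k * ft g k + 2 * ft (mx j f) k * ft (mx j g) k +
        ft f k * ft (mx j (mx j g)) k := by
  rw [mx_cr j hf hf1 hg hg1, Conv_add,
    ft_add (Conv_s2 j hf1 hf2 hg hg1) (Conv_s2 j hf hf1 hg1 hg2),
    ft_mx_cr j hf1 hf2 hg hg1, ft_mx_cr j hf hf1 hg1 hg2]
  ring

end H15LE
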