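import Pool.Agent.H15.LE.Base

/-!
PROJECT LE, Fourier block, job LF-Cosn. Bounds for the transform of a symmetric function.

PROOF. `ft_cos`: `Σ f(x) ch k x = Σ f(x) ch k (fl ε x)` for every `ε` (`Equiv.tsum_eq (flE ε)`), average over all `ε`:
`Σ_ε ch k (fl ε x) = ∏ i, (e^{i k_i x_i} + e^{-i k_i x_i}) = ∏ i, 2 cos (k_i x_i)` (`Finset.prod_univ_sum`,
`Fintype.piFinset`, or induction). `cos_diff`: `1 - ∏ c_i ≤ Σ (1 - c_i)` and `≥ 0`... for `|c_i| ≤ 1`
(induction over the finset), `1 - cos a ≤ a^2/2` (`Real.one_sub_sq_div_two_le_cos`), sum against `|f|`.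
`ft_mx_bd`: by the flip of the coordinate `j` alone,
`ft (mx j f) k = (1/2) Σ f(x) x_j (ch k x - ch k (fl x))`, and `‖ch k x - ch k (fl x)‖ = ‖e^{i k_j x_j} - e^{-i k_j x_j}‖
≤ 2 |k_j| |x_j|` (the other factors have norm one). `ft_mx2_bd`: triangle inequality.
`sq_avg`: by `pm (Equiv.swap i j)` the sums `Σ x_i^2 |f|` do not depend on `i`.
-/

namespace H15LE

open H5DF H95LBD H95LE MeasureTheory

variable {d : ℕ}

lemma Cosn_flip {f : V d → ℝ} (hs : ∀ ε x, f (fl ε x) = f x) (k : Fin d → ℝ)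
    (ε : Fin d → Bool) : ft f k = ∑' x, (f x : ℂ) * ch k (fl ε x) := by
  unfold ft
  rw [← Equiv.tsum_eq (flE ε)]
  refine tsum_congr fun x => ?_
  show (f (fl ε x) : ℂ) * ch k (fl ε x) = _
  rw [hs]

lemma Cosn_sum (k : Fin d → ℝ) (x : V d) :
    ∑ ε : Fin d → Bool, ch k (fl ε x)
      = (((2 : ℝ) ^ d * ∏ i, Real.cos (k i * (x i : ℝ)) : ℝ) : ℂ) := by
  have h1 : ∀ ε : Fin d → Bool, ch k (fl ε x) = ∏ i, (fun (i : Fin d) (b : Bool) =>
      if b then Complex.exp (-(((k i * (x i : ℝ) : ℝ) : ℂ) * Complex.I)) else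
        Complex.exp (((k i * (x i : ℝ) : ℝ) : ℂ) * Complex.I)) i (ε i) := by
    intro ε
    unfold ch fl
    refine Finset.prod_congr rfl fun i _ => ?_
    by_cases h : ε i
    · simp [h]
    · simp [h]
  simp_rw [h1]
  have h2 := Finset.prod_univ_sum (fun _ : Fin d => (Finset.univ : Finset Bool))
    (fun (i : Fin d) (b : Bool) =>
      if b then Complex.exp (-(((k i * (x i : ℝ) : ℝ) : ℂ) * Complex.I)) else
        Complex.exp (((k i * (x i : ℝ) : ℝ) : ℂ) * Complex.I))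
  rw [Fintype.piFinset_univ] at h2
  rw [← h2]
  have h3 : ∀ i : Fin d, (∑ b : Bool, (if b then
      Complex.exp (-(((k i * (x i : ℝ) : ℝ) : ℂ) * Complex.I)) else
        Complex.exp (((k i * (x i : ℝ) : ℝ) : ℂ) * Complex.I)))
        = 2 * ((Real.cos (k i * (x i : ℝ)) : ℝ) : ℂ) := by
    intro i
    rw [Fintype.sum_bool, Complex.ofReal_cos, Complex.cos]
    simp only [if_true]
    rw [← neg_mul]
    simp
    ring
  rw [Finset.prod_congr rfl fun i _ => h3 i, Finset.prod_mul_distrib]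
  simp

theorem ft_cos {f : V d → ℝ} (hf : Summable f) (hs : ∀ ε x, f (fl ε x) = f x) (k : Fin d → ℝ) :
    ft f k = ((∑' x, f x * ∏ i, Real.cos (k i * (x i : ℝ)) : ℝ) : ℂ) := by
  have hsum : ∀ ε : Fin d → Bool, Summable fun x => (f x : ℂ) * ch k (fl ε x) := by
    intro ε
    refine Summable.of_norm ?_
    have : (fun x => ‖(f x : ℂ) * ch k (fl ε x)‖) = fun x => |f x| := by
      funext x
      rw [norm_mul, norm_ch, mul_one, Complex.norm_real, Real.norm_eq_abs]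
    rw [this]
    exact hf.abs
  have h1 : ∑ ε : Fin d → Bool, ft f k = ∑' x, ∑ ε : Fin d → Bool, (f x : ℂ) * ch k (fl ε x) := by
    rw [Summable.tsum_finsetSum fun ε _ => hsum ε]
    exact Finset.sum_congr rfl fun ε _ => Cosn_flip hs k ε
  have h2 : ∀ x : V d, ∑ ε : Fin d → Bool, (f x : ℂ) * ch k (fl ε x)
      = (2 : ℂ) ^ d * ((f x * ∏ i, Real.cos (k i * (x i : ℝ)) : ℝ) : ℂ) := by
    intro x
    rw [← Finset.mul_sum, Cosn_sum]
    push_cast
    ring
  rw [Finset.sum_const, Finset.card_univ, Fintype.card_fun, Fintype.card_bool, Fintype.card_fin,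
    nsmul_eq_mul] at h1
  simp_rw [h2] at h1
  rw [tsum_mul_left] at h1
  push_cast at h1
  have h3 := mul_left_cancel₀ (pow_ne_zero d (two_ne_zero : (2 : ℂ) ≠ 0)) h1
  rw [h3, Complex.ofReal_tsum]
  refine tsum_congr fun x => ?_
  push_cast
  rfl

theorem ft_real {f : V d → ℝ} (hf : Summable f) (hs : ∀ ε x, f (fl ε x) = f x) (k : Fin d → ℝ) :
    ft f k = (((ft f k).re : ℝ) : ℂ) := by
  rw [ft_cos hf hs k, Complex.ofReal_re]

lemma Cosn_prod (s : Finset (Fin d)) (c : Fin d → ℝ) (hc : ∀ i, |c i| ≤ 1) :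
    |1 - ∏ i ∈ s, c i| ≤ ∑ i ∈ s, (1 - c i) := by
  classical
  induction s using Finset.induction_on with
  | empty => simp
  | insert a s ha ih =>
    rw [Finset.prod_insert ha, Finset.sum_insert ha]
    have h1 : 1 - c a * ∏ i ∈ s, c i = (1 - c a) + c a * (1 - ∏ i ∈ s, c i) := by ring
    have h2 : |c a * (1 - ∏ i ∈ s, c i)| ≤ |1 - ∏ i ∈ s, c i| := by
      rw [abs_mul]
      exact mul_le_of_le_one_left (abs_nonneg _) (hc a)
    have h3 : |1 - c a| = 1 - c a := abs_of_nonneg (by linarith [le_abs_self (c a), hc a])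
    rw [h1]
    calc _ ≤ |1 - c a| + |c a * (1 - ∏ i ∈ s, c i)| := abs_add_le _ _
      _ ≤ _ := by rw [h3]; linarith

lemma Cosn_prod_le (k : Fin d → ℝ) (x : V d) : |∏ i, Real.cos (k i * (x i : ℝ))| ≤ 1 := by
  rw [Finset.abs_prod]
  exact Finset.prod_le_one (fun i _ => abs_nonneg _) fun i _ => Real.abs_cos_le_one _

lemma Cosn_term (k : Fin d → ℝ) (x : V d) :
    |1 - ∏ i, Real.cos (k i * (x i : ℝ))| ≤ (∑ i, k i ^ 2 * (x i : ℝ) ^ 2) / 2 := by
  refine (Cosn_prod Finset.univ _ fun i => Real.abs_cos_le_one _).trans ?_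
  rw [Finset.sum_div]
  refine Finset.sum_le_sum fun i _ => ?_
  have := Real.one_sub_sq_div_two_le_cos (x := k i * (x i : ℝ))
  rw [mul_pow] at this
  linarith

lemma Cosn_summ {f : V d → ℝ} (hf : Summable f) (k : Fin d → ℝ) :
    Summable fun x => f x * ∏ i, Real.cos (k i * (x i : ℝ)) := by
  refine Summable.of_norm_bounded hf.abs fun x => ?_
  rw [Real.norm_eq_abs, abs_mul]
  exact mul_le_of_le_one_right (abs_nonneg _) (Cosn_prod_le k x)

theorem cos_diff {f : V d → ℝ} (hf : WS f) (hs : ∀ ε x, f (fl ε x) = f x) (k : Fin d → ℝ) :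
    |(ft f 0).re - (ft f k).re| ≤ (∑ i, k i ^ 2 * ∑' x, (x i : ℝ) ^ 2 * |f x|) / 2 := by
  rw [ft_cos hf.sum hs 0, ft_cos hf.sum hs k, Complex.ofReal_re, Complex.ofReal_re,
    ← (Cosn_summ hf.sum 0).tsum_sub (Cosn_summ hf.sum k)]
  have hS : Summable fun x : V d => (∑ i, k i ^ 2 * ((x i : ℝ) ^ 2 * |f x|)) / 2 := by
    refine Summable.div_const ?_ 2
    exact summable_sum fun i _ => (hf.sq i).mul_left _
  have hb : ∀ x : V d, ‖f x * ∏ i, Real.cos ((0 : Fin d → ℝ) i * (x i : ℝ))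
      - f x * ∏ i, Real.cos (k i * (x i : ℝ))‖ ≤ (∑ i, k i ^ 2 * ((x i : ℝ) ^ 2 * |f x|)) / 2 := by
    intro x
    have h0 : ∏ i, Real.cos ((0 : Fin d → ℝ) i * (x i : ℝ)) = 1 := by simp
    rw [h0, ← mul_sub, norm_mul, Real.norm_eq_abs, Real.norm_eq_abs]
    calc |f x| * |1 - ∏ i, Real.cos (k i * (x i : ℝ))|
        ≤ |f x| * ((∑ i, k i ^ 2 * (x i : ℝ) ^ 2) / 2) :=
          mul_le_mul_of_nonneg_left (Cosn_term k x) (abs_nonneg _)
      _ = _ := by
          rw [← mul_div_assoc, Finset.mul_sum]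
          congr 1
          refine Finset.sum_congr rfl fun i _ => ?_
          ring
  have h1 := tsum_of_norm_bounded hS.hasSum hb
  rw [Real.norm_eq_abs] at h1
  refine h1.trans (le_of_eq ?_)
  rw [tsum_div_const, Summable.tsum_finsetSum fun i _ => (hf.sq i).mul_left _]
  congr 1
  refine Finset.sum_congr rfl fun i _ => ?_
  rw [tsum_mul_left]

lemma Cosn_ch_flip (j : Fin d) (k : Fin d → ℝ) (x : V d) :
    ‖ch k x - ch k (fl (fun i => decide (i = j)) x)‖ ≤ 2 * (|k j| * |(x j : ℝ)|) := by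
  classical
  have h1 : ch k x = Complex.exp (((k j * (x j : ℝ) : ℝ) : ℂ) * Complex.I) *
      ∏ i ∈ ({j}ᶜ : Finset (Fin d)), Complex.exp (((k i * (x i : ℝ) : ℝ) : ℂ) * Complex.I) :=
    Fintype.prod_eq_mul_prod_compl j _
  have h2 : ch k (fl (fun i => decide (i = j)) x)
      = Complex.exp (((-(k j * (x j : ℝ)) : ℝ) : ℂ) * Complex.I) *
      ∏ i ∈ ({j}ᶜ : Finset (Fin d)), Complex.exp (((k i * (x i : ℝ) : ℝ) : ℂ) * Complex.I) := by
    refine (Fintype.prod_eq_mul_prod_compl j _).trans ?_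
    congr 1
    · simp [fl]
    · refine Finset.prod_congr rfl fun i hi => ?_
      have : i ≠ j := by simpa using hi
      simp [fl, this]
  rw [h1, h2, ← sub_mul, norm_mul]
  have h3 : ‖∏ i ∈ ({j}ᶜ : Finset (Fin d)),
      Complex.exp (((k i * (x i : ℝ) : ℝ) : ℂ) * Complex.I)‖ = 1 := by
    rw [norm_prod]
    exact Finset.prod_eq_one fun i _ => Complex.norm_exp_ofReal_mul_I _
  rw [h3, mul_one]
  have h4 : Complex.exp (((k j * (x j : ℝ) : ℝ) : ℂ) * Complex.I)
      - Complex.exp (((-(k j * (x j : ℝ)) : ℝ) : ℂ) * Complex.I)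
      = ((2 * Real.sin (k j * (x j : ℝ)) : ℝ) : ℂ) * Complex.I := by
    rw [Complex.exp_mul_I, Complex.exp_mul_I]
    push_cast
    rw [Complex.cos_neg, Complex.sin_neg]
    ring
  rw [h4, norm_mul, Complex.norm_I, mul_one, Complex.norm_real, Real.norm_eq_abs, abs_mul,
    abs_of_pos (by norm_num : (0 : ℝ) < 2), ← abs_mul]
  have := Real.abs_sin_le_abs (x := k j * (x j : ℝ))
  linarith

theorem ft_mx_bd {f : V d → ℝ} (hf : WS f) (hs : ∀ ε x, f (fl ε x) = f x) (j : Fin d)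
    (k : Fin d → ℝ) : ‖ft (mx j f) k‖ ≤ |k j| * ∑' x, (x j : ℝ) ^ 2 * |f x| := by
  set ε : Fin d → Bool := fun i => decide (i = j) with hε
  have hsm := hf.mx j
  have hsum : Summable fun x => ((mx j f x : ℝ) : ℂ) * ch k (fl ε x) := by
    refine Summable.of_norm ?_
    have : (fun x => ‖((mx j f x : ℝ) : ℂ) * ch k (fl ε x)‖) = fun x => |mx j f x| := by
      funext x
      rw [norm_mul, norm_ch, mul_one, Complex.norm_real, Real.norm_eq_abs]
    rw [this]
    exact hsm.abs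
  have h1 : ft (mx j f) k = - ∑' x, ((mx j f x : ℝ) : ℂ) * ch k (fl ε x) := by
    unfold ft
    rw [← Equiv.tsum_eq (flE ε), ← tsum_neg]
    refine tsum_congr fun x => ?_
    show ((mx j f (fl ε x) : ℝ) : ℂ) * ch k (fl ε x) = _
    have : mx j f (fl ε x) = - mx j f x := by
      unfold mx
      rw [hs]
      simp [fl, hε]
    rw [this]
    push_cast
    ring
  have h2 : ft (mx j f) k + ft (mx j f) k
      = ∑' x, ((mx j f x : ℝ) : ℂ) * (ch k x - ch k (fl ε x)) := by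
    conv_lhs => rw [h1]
    rw [← h1]
    have : ∀ x, ((mx j f x : ℝ) : ℂ) * (ch k x - ch k (fl ε x))
        = ((mx j f x : ℝ) : ℂ) * ch k x - ((mx j f x : ℝ) : ℂ) * ch k (fl ε x) := by
      intro x; ring
    simp_rw [this]
    rw [(summable_ft hsm k).tsum_sub hsum]
    rw [sub_eq_add_neg, ← h1]
    rfl
  have hS : Summable fun x : V d => 2 * (|k j| * ((x j : ℝ) ^ 2 * |f x|)) :=
    ((hf.sq j).mul_left _).mul_left _
  have hb : ∀ x, ‖((mx j f x : ℝ) : ℂ) * (ch k x - ch k (fl ε x))‖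
      ≤ 2 * (|k j| * ((x j : ℝ) ^ 2 * |f x|)) := by
    intro x
    rw [norm_mul, Complex.norm_real, Real.norm_eq_abs]
    have h3 := Cosn_ch_flip j k x
    calc |mx j f x| * ‖ch k x - ch k (fl ε x)‖
        ≤ |mx j f x| * (2 * (|k j| * |(x j : ℝ)|)) :=
          mul_le_mul_of_nonneg_left h3 (abs_nonneg _)
      _ = _ := by
        unfold mx
        rw [abs_mul, ← sq_abs (x j : ℝ)]
        ring
  have h4 := tsum_of_norm_bounded hS.hasSum hb
  rw [← h2, tsum_mul_left, tsum_mul_left, ← two_mul, norm_mul] at h4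
  simp only [Complex.norm_ofNat] at h4
  linarith

theorem ft_mx2_bd {f : V d → ℝ} (hf : WS f) (j : Fin d) (k : Fin d → ℝ) :
    ‖ft (mx j (mx j f)) k‖ ≤ ∑' x, (x j : ℝ) ^ 2 * |f x| := by
  refine (norm_ft_le (hf.mx2 j) k).trans (le_of_eq ?_)
  refine tsum_congr fun x => ?_
  unfold mx
  rw [← mul_assoc, abs_mul, ← pow_two, abs_of_nonneg (by positivity)]

theorem sq_avg {f : V d → ℝ} (hf : WS f) (hp : ∀ σ x, f (pm σ x) = f x) (j : Fin d) :
    (d : ℝ) * ∑' x, (x j : ℝ) ^ 2 * |f x| = ∑' x, (∑ i, (x i : ℝ) ^ 2) * |f x| := by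
  have h1 : ∀ i : Fin d, ∑' x, (x i : ℝ) ^ 2 * |f x| = ∑' x, (x j : ℝ) ^ 2 * |f x| := by
    intro i
    rw [← Equiv.tsum_eq (pmE (Equiv.swap i j))]
    refine tsum_congr fun x => ?_
    show ((pm (Equiv.swap i j) x) i : ℝ) ^ 2 * |f (pm (Equiv.swap i j) x)| = _
    rw [hp]
    simp [pm]
  have h2 : ∀ x : V d, (∑ i, (x i : ℝ) ^ 2) * |f x| = ∑ i, (x i : ℝ) ^ 2 * |f x| :=
    fun x => Finset.sum_mul _ _ _
  simp_rw [h2]
  rw [Summable.tsum_finsetSum fun i _ => hf.sq i, Finset.sum_congr rfl fun i _ => h1 i]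
  simp

lemma Cosn_ws {f : V d → ℝ} (hf : WS f) :
    Summable fun x => (w2 x : ℝ) * |f x - (if x = 0 then 1 else 0)| := by
  have h0 : Summable fun x : V d => (w2 x : ℝ) * (if x = 0 then (1 : ℝ) else 0) := by
    refine summable_of_ne_finset_zero (s := {0}) fun x hx => ?_
    have : x ≠ 0 := by simpa using hx
    simp [this]
  refine Summable.of_nonneg_of_le (fun x => by positivity) (fun x => ?_) (Summable.add hf h0)
  have h1 : |f x - (if x = 0 then (1 : ℝ) else 0)| ≤ |f x| + (if x = 0 then (1 : ℝ) else 0) := by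
    refine (abs_sub _ _).trans ?_
    have : |(if x = 0 then (1 : ℝ) else 0)| = (if x = 0 then (1 : ℝ) else 0) := by
      split_ifs <;> simp
    rw [this]
  have h2 : (0 : ℝ) ≤ (w2 x : ℝ) := by positivity
  nlinarith [mul_le_mul_of_nonneg_left h1 h2]

/-- `Σ x_j^2 |X| ≤ 1/(12 d)` from the bound of the weighted norm of `X - δ`. -/
theorem sq_bd {f : V d → ℝ} (hd : 0 < d) (hf : WS f) (hp : ∀ σ x, f (pm σ x) = f x)
    (hb : ∑' x, (w2 x : ℝ) * |f x - (if x = 0 then 1 else 0)| ≤ 1 / 12) (j : Fin d) :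
    ∑' x, (x j : ℝ) ^ 2 * |f x| ≤ 1 / (12 * d) := by
  have hd' : (0 : ℝ) < d := by exact_mod_cast hd
  have h1 := sq_avg hf hp j
  have h2 : ∑' x, (∑ i, (x i : ℝ) ^ 2) * |f x|
      ≤ ∑' x, (w2 x : ℝ) * |f x - (if x = 0 then 1 else 0)| := by
    have hS : Summable fun x : V d => (∑ i, (x i : ℝ) ^ 2) * |f x| := by
      refine Summable.of_nonneg_of_le (fun x => by positivity) (fun x => ?_) hf
      refine mul_le_mul_of_nonneg_right ?_ (abs_nonneg _)
      rw [w2_eq]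
      linarith
    refine hS.tsum_le_tsum (fun x => ?_) (Cosn_ws hf)
    by_cases hx : x = 0
    · subst hx
      simp
      positivity
    · rw [if_neg hx, sub_zero, w2_eq]
      refine mul_le_mul_of_nonneg_right ?_ (abs_nonneg _)
      linarith
  rw [le_div_iff₀ (by positivity)]
  nlinarith [h1, h2, hb]

/-- `|ft X k - 1| ≤ 1/12`. -/
theorem ft_one {f : V d → ℝ} (hf : WS f)
    (hb : ∑' x, (w2 x : ℝ) * |f x - (if x = 0 then 1 else 0)| ≤ 1 / 12) (k : Fin d → ℝ) :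
    ‖ft f k - 1‖ ≤ 1 / 12 := by
  set δ : V d → ℝ := fun x => if x = 0 then 1 else 0 with hδ
  have hδs : Summable δ := by
    refine summable_of_ne_finset_zero (s := {0}) fun x hx => ?_
    have : x ≠ 0 := by simpa using hx
    simp [hδ, this]
  have h0 : ft δ k = 1 := by
    unfold ft
    rw [tsum_eq_single 0]
    · simp [hδ]
    · intro x hx
      simp [hδ, hx]
  have hg : Summable fun x => f x - δ x := hf.sum.sub hδs
  have h1 : ft f k - 1 = ft (fun x => f x - δ x) k := by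
    have := ft_add hg hδs k
    simp only [sub_add_cancel] at this
    have h2 : ft (fun x => f x) k = ft f k := rfl
    rw [h2, h0] at this
    rw [this]
    ring
  rw [h1]
  refine (norm_ft_le hg k).trans (le_trans ?_ hb)
  refine hg.abs.tsum_le_tsum (fun x => ?_) (Cosn_ws hf)
  have h1 : (1 : ℝ) ≤ (w2 x : ℝ) := by exact_mod_cast one_le_w2 x
  have h2 := abs_nonneg (f x - δ x)
  calc |f x - δ x| = 1 * |f x - δ x| := (one_mul _).symm
    _ ≤ (w2 x : ℝ) * |f x - δ x| := mul_le_mul_of_nonneg_right h1 h2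

end H15LE
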