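import Pool.Agent.H15.LE.Base

/-!
PROJECT LE, Fourier block, job LF-Low. Real numbers: `u = 1 - D^` and the lower bound for `N = 1 - j0 X`.

PROOF. `1 - cos a ≥ (2/π²) a²` for `|a| ≤ π` (`Real.cos_quadratic_upper_bound` or similar), sum over the coordinates,
`π² ≤ 10`. `j0 = 2 d p (1 - u)`. `low`: `a := 2dp X0 < 1` (`hlt`), `N = (1 - a) + a u + j0 (X0 - Xk)`,
`(1 - a) + a u ≥ u/2` (linear in `a ∈ [0,1]`, `0 ≤ u ≤ 2`), `|j0 (X0 - Xk)| ≤ (12/11) (1/24) (Σ k_i²)/d ≤ (12/11)(5/24) u ≤ u/4`.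
-/

namespace H15LE

variable {d : ℕ}

lemma Low_cos_le (k : Fin d → ℝ) : ∑ i, Real.cos (k i) ≤ d := by
  calc ∑ i, Real.cos (k i) ≤ ∑ _i : Fin d, (1 : ℝ) :=
        Finset.sum_le_sum fun i _ => Real.cos_le_one _
    _ = d := by simp

lemma Low_neg_le (k : Fin d → ℝ) : -(d : ℝ) ≤ ∑ i, Real.cos (k i) := by
  calc -(d : ℝ) = ∑ _i : Fin d, (-1 : ℝ) := by simp
    _ ≤ ∑ i, Real.cos (k i) := Finset.sum_le_sum fun i _ => Real.neg_one_le_cos _

lemma uu_nonneg (hd : 0 < d) (k : Fin d → ℝ) : 0 ≤ uu k := by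
  have hd' : (0 : ℝ) < d := by exact_mod_cast hd
  unfold uu
  have h : (∑ i, Real.cos (k i)) / d ≤ 1 := by
    rw [div_le_one hd']
    exact Low_cos_le k
  linarith

lemma uu_le_two (hd : 0 < d) (k : Fin d → ℝ) : uu k ≤ 2 := by
  have hd' : (0 : ℝ) < d := by exact_mod_cast hd
  unfold uu
  have h : -1 ≤ (∑ i, Real.cos (k i)) / d := by
    rw [le_div_iff₀ hd']
    have := Low_neg_le k
    linarith
  linarith

lemma j0_eq (hd : 0 < d) (p : ℝ) (k : Fin d → ℝ) : j0 p k = 2 * d * p * (1 - uu k) := by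
  have hd' : (d : ℝ) ≠ 0 := by positivity
  unfold j0 uu
  field_simp
  ring

lemma Low_sq_le {a : ℝ} (ha : |a| ≤ Real.pi) : a ^ 2 ≤ 5 * (1 - Real.cos a) := by
  have h1 := Real.cos_le_one_sub_mul_cos_sq ha
  have h2 : Real.pi ^ 2 ≤ 10 := by
    have := Real.pi_lt_d2
    have h0 := Real.pi_pos
    nlinarith
  have h3 : 0 < Real.pi ^ 2 := by positivity
  have h4 : 1 / 5 ≤ 2 / Real.pi ^ 2 := by
    rw [div_le_div_iff₀ (by norm_num) h3]
    linarith
  nlinarith [sq_nonneg a, mul_le_mul_of_nonneg_right h4 (sq_nonneg a)]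

lemma sq_le_uu (hd : 0 < d) {k : Fin d → ℝ} (hk : ∀ i, |k i| ≤ Real.pi) :
    (∑ i, k i ^ 2) / d ≤ 5 * uu k := by
  have hd' : (0 : ℝ) < d := by exact_mod_cast hd
  rw [div_le_iff₀ hd']
  have h1 : ∑ i, k i ^ 2 ≤ ∑ i, 5 * (1 - Real.cos (k i)) :=
    Finset.sum_le_sum fun i _ => Low_sq_le (hk i)
  have h2 : ∑ i, 5 * (1 - Real.cos (k i)) = 5 * uu k * d := by
    rw [← Finset.mul_sum, Finset.sum_sub_distrib]
    unfold uu
    simp only [Finset.sum_const, Finset.card_univ, Fintype.card_fin, nsmul_eq_mul, mul_one]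
    field_simp
  rw [← h2]
  exact h1

lemma uu_pos (hd : 0 < d) {k : Fin d → ℝ} (hk : ∀ i, |k i| ≤ Real.pi) (h0 : k ≠ 0) : 0 < uu k := by
  have hd' : (0 : ℝ) < d := by exact_mod_cast hd
  have h1 := sq_le_uu hd hk
  have h2 : 0 < (∑ i, k i ^ 2) / d := by
    refine div_pos ?_ hd'
    obtain ⟨i, hi⟩ : ∃ i, k i ≠ 0 := by
      by_contra h
      push Not at h
      exact h0 (funext h)
    exact Finset.sum_pos' (fun i _ => sq_nonneg _) ⟨i, Finset.mem_univ i, by positivity⟩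
  linarith

/-- `2dp ≤ 12/11` and `2dp X0 < 1` from `χ = X0 + X0 2dp χ`, `χ ≥ 1`. -/
theorem lam_bd {lam X0 c : ℝ} (hl : 0 ≤ lam) (hc : 1 ≤ c) (hX : |X0 - 1| ≤ 1 / 12)
    (h : c = X0 + X0 * (lam * c)) : lam ≤ 12 / 11 ∧ lam * X0 < 1 := by
  have hX1 : 11 / 12 ≤ X0 := by
    have := (abs_le.mp hX).1
    linarith
  have hc0 : 0 < c := by linarith
  constructor
  · by_contra hn
    push Not at hn
    have h1 : 12 / 11 * c ≤ lam * c := mul_le_mul_of_nonneg_right hn.le hc0.le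
    have h2 : 11 / 12 * (12 / 11 * c) ≤ X0 * (lam * c) :=
      mul_le_mul hX1 h1 (by positivity) (by linarith)
    linarith
  · by_contra hn
    push Not at hn
    have h1 : 1 * c ≤ lam * X0 * c := mul_le_mul_of_nonneg_right hn hc0.le
    have h2 : X0 * (lam * c) = lam * X0 * c := by ring
    linarith

theorem low (hd : 0 < d) {p X0 Xk : ℝ} {k : Fin d → ℝ} (hk : ∀ i, |k i| ≤ Real.pi) (hp : 0 ≤ p)
    (hl : 2 * d * p ≤ 12 / 11) (hX0 : |X0 - 1| ≤ 1 / 12) (hlt : 2 * d * p * X0 < 1)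
    (hdiff : |X0 - Xk| ≤ (∑ i, k i ^ 2) / (24 * d)) :
    uu k / 4 ≤ 1 - j0 p k * Xk := by
  have hd' : (0 : ℝ) < d := by exact_mod_cast hd
  have hu0 := uu_nonneg hd k
  have hu2 := uu_le_two hd k
  have hsq := sq_le_uu hd hk
  have hX1 : 11 / 12 ≤ X0 := by
    have := (abs_le.mp hX0).1
    linarith
  set u := uu k with hu
  set lam : ℝ := 2 * d * p with hlam
  have hlam0 : 0 ≤ lam := by positivity
  have ha0 : 0 ≤ lam * X0 := mul_nonneg hlam0 (by linarith)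
  have hdiff2 : |X0 - Xk| ≤ 5 / 24 * u := by
    refine hdiff.trans ?_
    have e : (∑ i, k i ^ 2) / (24 * d) = ((∑ i, k i ^ 2) / d) / 24 := by
      field_simp
    rw [e]
    linarith
  have hj : j0 p k = lam * (1 - u) := j0_eq hd p k
  have h1u : |1 - u| ≤ 1 := by
    rw [abs_le]; constructor <;> linarith
  have hprod : |lam * (1 - u) * (X0 - Xk)| ≤ 12 / 11 * 1 * (5 / 24 * u) := by
    rw [abs_mul, abs_mul, abs_of_nonneg hlam0]
    exact mul_le_mul (mul_le_mul hl h1u (abs_nonneg _) (by norm_num)) hdiff2 (abs_nonneg _)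
      (by norm_num)
  have hp1 := (abs_le.mp hprod).1
  have hmain : u / 2 ≤ (1 - lam * X0) + lam * X0 * u := by
    nlinarith [mul_nonneg (sub_nonneg.mpr hlt.le) (by linarith : 0 ≤ 1 - u / 2),
      mul_nonneg ha0 (by linarith : 0 ≤ u / 2)]
  have e : 1 - j0 p k * Xk = (1 - lam * X0) + lam * X0 * u + lam * (1 - u) * (X0 - Xk) := by
    rw [hj]; ring
  rw [e]
  linarith

end H15LE
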