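import Pool.Agent.H15.LE.Base

/-!
PROJECT LE, Fourier block, job LF-Num. Numbers only: bounds for the solution of the Ornstein-Zernike equation and
its two derivatives.

PROOF. `N := 1 - j X`. `T N = X`; `N (1 + j T) = 1`; `T1 N = X1 (1 + j T) + X J1 T`, so `T1 N^2 = X1 + J1 X^2`;
`T2 N = X2 (1 + j T) + X J2 T + 2 X J1 T1 + 2 X1 J1 T + 2 X1 j T1`, so
`T2 N^2 = X2 + 2 X1 J1 X + X^2 J2 + 2 (X J1 + X1 j) T1 N`.
With `n := ‖N‖ ≥ u/4`: `‖T‖ ≤ (13/12) (4/u) ≤ 5/u`; `‖T1‖ ≤ q (1/12 + (12/11)(13/12)^2) 16/u^2 ≤ 22 q/u^2`;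
`‖X2 + 2 X1 J1 X + X^2 J2‖ ≤ (1/12 + (13/12)^2 (12/11)) r + (2/12)(12/11)(13/12) q^2 ≤ 1.37 r + 0.2 q^2 ≤ 3.37 r`
(`q^2 ≤ 5 u r`, `u ≤ 2`), `‖2 (X J1 + X1 j) T1 N‖ ≤ 2 (14/11) q (‖X1 + J1 X^2‖/n) ≤ 2 (14/11)(1.37) q^2 (4/u) ≤ 70 r`;
so `‖T2‖ ≤ (3.37 + 70) r * 16/u^2 ≤ 1200 r / u^2`.
-/

namespace H15LE

lemma num_TN {T X : ℂ} {j : ℝ} (hT : T = X + X * (j * T)) : T * (1 - (j : ℂ) * X) = X := by
  linear_combination hT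

lemma num_N1 {T X : ℂ} {j : ℝ} (hT : T = X + X * (j * T)) :
    (1 + (j : ℂ) * T) * (1 - (j : ℂ) * X) = 1 := by
  linear_combination (j : ℂ) * hT

theorem num_T {T X : ℂ} {j u : ℝ} (hu : 0 < u) (hN : u / 4 ≤ ‖1 - (j : ℂ) * X‖)
    (hX : ‖X‖ ≤ 13 / 12) (hT : T = X + X * (j * T)) : ‖T‖ ≤ 5 / u := by
  have h1 : ‖T‖ * ‖1 - (j : ℂ) * X‖ = ‖X‖ := by rw [← norm_mul, num_TN hT]
  have h2 : ‖T‖ * (u / 4) ≤ 13 / 12 := by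
    calc ‖T‖ * (u / 4) ≤ ‖T‖ * ‖1 - (j : ℂ) * X‖ := mul_le_mul_of_nonneg_left hN (norm_nonneg _)
      _ = ‖X‖ := h1
      _ ≤ 13 / 12 := hX
  rw [le_div_iff₀ hu]
  linarith

theorem num_T2 {T T1 T2 X X1 X2 J1 J2 : ℂ} {j u q r : ℝ} (hu : 0 < u) (hu2 : u ≤ 2) (hq : 0 ≤ q)
    (hr : 0 ≤ r) (hN : u / 4 ≤ ‖1 - (j : ℂ) * X‖)
    (hX : ‖X‖ ≤ 13 / 12) (hj : |j| ≤ 12 / 11)
    (hX1 : ‖X1‖ ≤ q / 12) (hJ1 : ‖J1‖ ≤ 12 / 11 * q)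
    (hX2 : ‖X2‖ ≤ r / 12) (hJ2 : ‖J2‖ ≤ 12 / 11 * r)
    (hqr : q ^ 2 ≤ 5 * u * r)
    (hT : T = X + X * (j * T))
    (hT1 : T1 = X1 + (X1 * (j * T) + X * (j * T1 + J1 * T)))
    (hT2 : T2 = X2 + (X2 * (j * T) + 2 * X1 * (j * T1 + J1 * T) +
      X * (j * T2 + 2 * J1 * T1 + J2 * T))) :
    ‖T2‖ ≤ 1200 * r / u ^ 2 := by
  have hTN := num_TN hT
  have hN1 := num_N1 hT
  set N : ℂ := 1 - (j : ℂ) * X with hNdef
  have hjn : ‖(j : ℂ)‖ ≤ 12 / 11 := by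
    rw [Complex.norm_real, Real.norm_eq_abs]
    exact hj
  have hn0 : 0 < ‖N‖ := lt_of_lt_of_le (by positivity) hN
  have e1 : (T1 * N) * N = X1 + J1 * X ^ 2 := by
    have h1 : T1 * N = X1 * (1 + j * T) + X * J1 * T := by
      rw [hNdef]
      linear_combination hT1
    rw [h1]
    linear_combination X1 * hN1 + X * J1 * hTN
  have e2 : T2 * N * N = X2 + 2 * X1 * J1 * X + X ^ 2 * J2 + 2 * (X * J1 + X1 * j) * (T1 * N) := by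
    have h1 : T2 * N = X2 * (1 + j * T) + 2 * X1 * (j * T1 + J1 * T) + X * (2 * J1 * T1 + J2 * T) := by
      rw [hNdef]
      linear_combination hT2
    rw [h1]
    linear_combination X2 * hN1 + (2 * X1 * J1 + X * J2) * hTN
  have b1 : ‖T1 * N‖ * ‖N‖ ≤ 15 / 11 * q := by
    rw [← norm_mul, e1]
    calc ‖X1 + J1 * X ^ 2‖ ≤ ‖X1‖ + ‖J1‖ * ‖X‖ ^ 2 := by
          refine (norm_add_le _ _).trans ?_
          rw [norm_mul, norm_pow]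
      _ ≤ q / 12 + 12 / 11 * q * (13 / 12) ^ 2 := by
          gcongr
      _ = 15 / 11 * q := by ring
  have b2 : ‖T1 * N‖ * u ≤ 60 / 11 * q := by
    have h1 : ‖T1 * N‖ * (u / 4) ≤ ‖T1 * N‖ * ‖N‖ := mul_le_mul_of_nonneg_left hN (norm_nonneg _)
    linarith
  have b3 : ‖X2 + 2 * X1 * J1 * X + X ^ 2 * J2‖ ≤ 15 / 11 * r + 13 / 66 * q ^ 2 := by
    calc ‖X2 + 2 * X1 * J1 * X + X ^ 2 * J2‖
        ≤ ‖X2‖ + 2 * ‖X1‖ * ‖J1‖ * ‖X‖ + ‖X‖ ^ 2 * ‖J2‖ := by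
          refine (norm_add_le _ _).trans ?_
          refine add_le_add ((norm_add_le _ _).trans ?_) ?_
          · rw [norm_mul, norm_mul, norm_mul, Complex.norm_ofNat]
          · rw [norm_mul, norm_pow]
      _ ≤ r / 12 + 2 * (q / 12) * (12 / 11 * q) * (13 / 12) + (13 / 12) ^ 2 * (12 / 11 * r) := by
          gcongr
      _ = 15 / 11 * r + 13 / 66 * q ^ 2 := by ring
  have b4 : ‖2 * (X * J1 + X1 * j)‖ ≤ 28 / 11 * q := by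
    calc ‖2 * (X * J1 + X1 * j)‖ ≤ 2 * (‖X‖ * ‖J1‖ + ‖X1‖ * ‖(j : ℂ)‖) := by
          rw [norm_mul, Complex.norm_ofNat]
          refine mul_le_mul_of_nonneg_left ((norm_add_le _ _).trans ?_) (by norm_num)
          rw [norm_mul, norm_mul]
      _ ≤ 2 * (13 / 12 * (12 / 11 * q) + q / 12 * (12 / 11)) := by
          gcongr
      _ = 28 / 11 * q := by ring
  have b5 : ‖2 * (X * J1 + X1 * j) * (T1 * N)‖ * u ≤ 28 / 11 * q * (60 / 11 * q) := by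
    rw [norm_mul, mul_assoc]
    exact mul_le_mul b4 b2 (by positivity) (by positivity)
  have b6 : ‖2 * (X * J1 + X1 * j) * (T1 * N)‖ ≤ 8400 / 121 * r := by
    have h1 : ‖2 * (X * J1 + X1 * j) * (T1 * N)‖ * u ≤ 8400 / 121 * r * u := by
      refine b5.trans ?_
      have : 28 / 11 * q * (60 / 11 * q) = 1680 / 121 * q ^ 2 := by ring
      rw [this]
      nlinarith
    exact le_of_mul_le_mul_right h1 hu
  have b7 : q ^ 2 ≤ 10 * r := by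
    refine hqr.trans ?_
    nlinarith
  have b8 : ‖T2‖ * ‖N‖ * ‖N‖ ≤ 75 * r := by
    rw [← norm_mul, ← norm_mul, e2]
    refine (norm_add_le _ _).trans ?_
    linarith
  have b9 : ‖T2‖ * (u / 4) * (u / 4) ≤ 75 * r := by
    refine le_trans ?_ b8
    gcongr
  rw [le_div_iff₀ (by positivity)]
  nlinarith

/-- The value at `k = 0`. -/
theorem num_zero {T T2 X X2 J2 : ℂ} {j r c : ℝ} (hr : 0 ≤ r) (hc : 1 ≤ c) (hTc : T = c)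
    (hX : ‖X‖ ≤ 13 / 12) (hX' : 11 / 12 ≤ ‖X‖) (hj : |j| ≤ 12 / 11)
    (hX2 : ‖X2‖ ≤ r / 12) (hJ2 : ‖J2‖ ≤ 12 / 11 * r)
    (hT : T = X + X * (j * T))
    (hT2 : T2 = X2 + (X2 * (j * T) + X * (j * T2 + J2 * T))) :
    ‖T2‖ ≤ 2 * r * c ^ 2 := by
  have hTN := num_TN hT
  have hN1 := num_N1 hT
  set N : ℂ := 1 - (j : ℂ) * X with hNdef
  have e2 : T2 * N * N = X2 + X ^ 2 * J2 := by
    have h1 : T2 * N = X2 * (1 + j * T) + X * (J2 * T) := by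
      rw [hNdef]
      linear_combination hT2
    rw [h1]
    linear_combination X2 * hN1 + (X * J2) * hTN
  have e3 : T2 * X ^ 2 = (c : ℂ) ^ 2 * (X2 + X ^ 2 * J2) := by
    rw [← e2, ← hTN, hTc]
    ring
  have hcn : ‖(c : ℂ)‖ = c := by
    rw [Complex.norm_real, Real.norm_eq_abs, abs_of_nonneg (by linarith)]
  have e4 : ‖T2‖ * ‖X‖ ^ 2 ≤ c ^ 2 * (‖X2‖ + ‖X‖ ^ 2 * ‖J2‖) := by
    rw [← norm_pow, ← norm_mul, e3, norm_mul, norm_pow, hcn, norm_pow]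
    refine mul_le_mul_of_nonneg_left ((norm_add_le _ _).trans ?_) (by positivity)
    rw [norm_mul, norm_pow]
  have hx0 : (0 : ℝ) < ‖X‖ ^ 2 := by positivity
  have hx1 : (121 / 144 : ℝ) ≤ ‖X‖ ^ 2 := by nlinarith
  refine le_of_mul_le_mul_right (e4.trans ?_) hx0
  have h5 : ‖X2‖ + ‖X‖ ^ 2 * ‖J2‖ ≤ 2 * r * ‖X‖ ^ 2 := by
    have h6 : ‖X‖ ^ 2 * ‖J2‖ ≤ ‖X‖ ^ 2 * (12 / 11 * r) := mul_le_mul_of_nonneg_left hJ2 hx0.le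
    nlinarith
  calc c ^ 2 * (‖X2‖ + ‖X‖ ^ 2 * ‖J2‖) ≤ c ^ 2 * (2 * r * ‖X‖ ^ 2) :=
        mul_le_mul_of_nonneg_left h5 (by positivity)
    _ = 2 * r * c ^ 2 * ‖X‖ ^ 2 := by ring

end H15LE
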