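import Pool.Agent.H15.LE.Base

/-!
PROJECT LE, Fourier block, job LF-Shf. Convolution with `J` and its transform.

PROOF. `f (x - a)` has transform `ch k a * ft f k` (`Equiv.tsum_eq (Equiv.subRight a)`); sum over the steps:
`ch k (step (i, true)) + ch k (step (i, false)) = 2 cos (k i)`, `Σ_s (step s)_j ch k (step s) = 2 i sin (k j)`,
`Σ_s (step s)_j^2 ch k (step s) = 2 cos (k j)` (`Fintype.sum_prod_type`, `Fintype.sum_bool`; in
`ch k (Pi.single i (±1))` only the factor `i` is not one: `Finset.prod_eq_single`). `mx`: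
`x_j f (x - a) = (x - a)_j f (x - a) + a_j f (x - a)`.
-/

namespace H15LE

open H5DF H95LBD H95LE MeasureTheory

variable {d : ℕ}

lemma summable_shift {f : V d → ℝ} (hf : Summable f) (a : V d) : Summable fun x => f (x - a) :=
  (Equiv.subRight a).summable_iff.2 hf

/-- Weighted sum of the shifts by the steps. -/
noncomputable def shfW (p : ℝ) (w : Dir d → ℝ) (f : V d → ℝ) (x : V d) : ℝ :=
  ∑ s : Dir d, p * w s * f (x - step s)

lemma shf_summable (p : ℝ) (w : Dir d → ℝ) {f : V d → ℝ} (hf : Summable f) :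
    Summable (shfW p w f) := by
  unfold shfW
  exact summable_sum fun s _ => (summable_shift hf (step s)).mul_left _

lemma shf_ft_shift (f : V d → ℝ) (a : V d) (k : Fin d → ℝ) :
    ft (fun x => f (x - a)) k = ch k a * ft f k := by
  unfold ft
  rw [← (Equiv.addRight a).tsum_eq, ← tsum_mul_left]
  refine tsum_congr fun x => ?_
  simp only [Equiv.coe_addRight, add_sub_cancel_right, ch_add]
  ring

lemma shf_ft (p : ℝ) (w : Dir d → ℝ) {f : V d → ℝ} (hf : Summable f) (k : Fin d → ℝ) :
    ft (shfW p w f) k = (∑ s : Dir d, ((p * w s : ℝ) : ℂ) * ch k (step s)) * ft f k := by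
  have h1 : ∀ s : Dir d, ((p * w s : ℝ) : ℂ) * (ch k (step s) * ft f k) =
      ∑' x, ((p * w s * f (x - step s) : ℝ) : ℂ) * ch k x := by
    intro s
    rw [← shf_ft_shift f (step s) k]
    unfold ft
    rw [← tsum_mul_left]
    refine tsum_congr fun x => ?_
    push_cast
    ring
  have h2 : ∀ s ∈ (Finset.univ : Finset (Dir d)),
      Summable fun x => ((p * w s * f (x - step s) : ℝ) : ℂ) * ch k x := by
    intro s _
    exact summable_ft (f := fun x => p * w s * f (x - step s))
      ((summable_shift hf (step s)).mul_left _) k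
  rw [Finset.sum_mul]
  simp only [mul_assoc]
  rw [Finset.sum_congr rfl fun s _ => h1 s, ← Summable.tsum_finsetSum h2]
  unfold ft shfW
  refine tsum_congr fun x => ?_
  rw [Complex.ofReal_sum, Finset.sum_mul]

lemma shf_mx (p : ℝ) (j : Fin d) (w : Dir d → ℝ) (f : V d → ℝ) :
    mx j (shfW p w f) = fun x => shfW p w (mx j f) x +
      shfW p (fun s => w s * ((step s : V d) j : ℝ)) f x := by
  funext x
  unfold shfW mx
  rw [Finset.mul_sum, ← Finset.sum_add_distrib]
  refine Finset.sum_congr rfl fun s _ => ?_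
  simp only [Pi.sub_apply]
  push_cast
  ring

lemma shf_one (p : ℝ) (f : V d → ℝ) : sh p f = shfW p (fun _ => 1) f := by
  funext x
  unfold sh shfW
  simp only [mul_one]

lemma shf_ch (k : Fin d → ℝ) (i : Fin d) (c : ℤ) :
    ch k (Pi.single i c) = Complex.exp (((k i * (c : ℝ) : ℝ) : ℂ) * Complex.I) := by
  unfold ch
  rw [Finset.prod_eq_single i]
  · simp
  · intro b _ hb
    rw [Pi.single_eq_of_ne hb]
    simp
  · intro h
    exact absurd (Finset.mem_univ i) h

lemma shf_ch_true (k : Fin d → ℝ) (i : Fin d) : ch k (step ((i, true) : Dir d)) =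
    Complex.cos (k i) + Complex.sin (k i) * Complex.I := by
  have h : (step ((i, true) : Dir d) : V d) = Pi.single i 1 := by simp [step]
  rw [h, shf_ch, ← Complex.exp_mul_I]
  congr 2
  push_cast
  ring

lemma shf_ch_false (k : Fin d → ℝ) (i : Fin d) : ch k (step ((i, false) : Dir d)) =
    Complex.cos (k i) - Complex.sin (k i) * Complex.I := by
  have h : (step ((i, false) : Dir d) : V d) = Pi.single i (-1) := by simp [step]
  have h2 : ((k i * ((-1 : ℤ) : ℝ) : ℝ) : ℂ) * Complex.I = (-(k i : ℂ)) * Complex.I := by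
    push_cast
    ring
  rw [h, shf_ch, h2, Complex.exp_mul_I, Complex.cos_neg, Complex.sin_neg]
  ring

lemma shf_s0 (p : ℝ) (k : Fin d → ℝ) :
    ∑ s : Dir d, ((p * 1 : ℝ) : ℂ) * ch k (step s) = (j0 p k : ℂ) := by
  rw [Fintype.sum_prod_type]
  unfold j0
  push_cast
  rw [Finset.mul_sum]
  refine Finset.sum_congr rfl fun i _ => ?_
  rw [Fintype.sum_bool, shf_ch_true, shf_ch_false]
  ring

lemma shf_step_true (i j : Fin d) :
    (((step ((i, true) : Dir d) : V d) j : ℤ) : ℝ) = if i = j then 1 else 0 := by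
  by_cases h : i = j
  · subst h
    simp [step]
  · have h' : j ≠ i := fun e => h e.symm
    simp [step, h, h']

lemma shf_step_false (i j : Fin d) :
    (((step ((i, false) : Dir d) : V d) j : ℤ) : ℝ) = if i = j then -1 else 0 := by
  by_cases h : i = j
  · subst h
    simp [step]
  · have h' : j ≠ i := fun e => h e.symm
    simp [step, h, h']

lemma shf_s1 (p : ℝ) (j : Fin d) (k : Fin d → ℝ) :
    ∑ s : Dir d, ((p * (1 * ((step s : V d) j : ℝ)) : ℝ) : ℂ) * ch k (step s) = j1 p j k := by
  rw [Fintype.sum_prod_type, Finset.sum_eq_single j]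
  · rw [Fintype.sum_bool, shf_ch_true, shf_ch_false, shf_step_true, shf_step_false]
    unfold j1
    simp only [if_true]
    push_cast
    ring
  · intro i _ hi
    rw [Fintype.sum_bool, shf_step_true, shf_step_false]
    simp [hi]
  · intro h
    exact absurd (Finset.mem_univ j) h

lemma shf_s2 (p : ℝ) (j : Fin d) (k : Fin d → ℝ) :
    ∑ s : Dir d, ((p * (1 * ((step s : V d) j : ℝ) * ((step s : V d) j : ℝ)) : ℝ) : ℂ) *
      ch k (step s) = j2 p j k := by
  rw [Fintype.sum_prod_type, Finset.sum_eq_single j]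
  · rw [Fintype.sum_bool, shf_ch_true, shf_ch_false, shf_step_true, shf_step_false]
    unfold j2
    simp only [if_true]
    push_cast
    ring
  · intro i _ hi
    rw [Fintype.sum_bool, shf_step_true, shf_step_false]
    simp [hi]
  · intro h
    exact absurd (Finset.mem_univ j) h

lemma summable_sh (p : ℝ) {f : V d → ℝ} (hf : Summable f) : Summable (sh p f) := by
  rw [shf_one]
  exact shf_summable p _ hf

lemma shf_mx_one (p : ℝ) (j : Fin d) (f : V d → ℝ) :
    mx j (sh p f) = fun x => sh p (mx j f) x +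
      shfW p (fun s => 1 * ((step s : V d) j : ℝ)) f x := by
  rw [shf_one, shf_one, shf_mx]

lemma shf_mx_two (p : ℝ) (j : Fin d) (f : V d → ℝ) :
    mx j (mx j (sh p f)) = fun x => (sh p (mx j (mx j f)) x +
      shfW p (fun s => 1 * ((step s : V d) j : ℝ)) (mx j f) x) +
      (shfW p (fun s => 1 * ((step s : V d) j : ℝ)) (mx j f) x +
        shfW p (fun s => 1 * ((step s : V d) j : ℝ) * ((step s : V d) j : ℝ)) f x) := by
  have h1 := shf_mx_one p j (mx j f)
  have h2 := shf_mx p j (fun s => 1 * ((step s : V d) j : ℝ)) f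
  rw [shf_mx_one]
  funext x
  have e1 := congrFun h1 x
  have e2 := congrFun h2 x
  unfold mx at e1 e2 ⊢
  rw [mul_add, e1, e2]

lemma summable_mx_sh (p : ℝ) (j : Fin d) {f : V d → ℝ} (hf : Summable f)
    (hf1 : Summable (mx j f)) : Summable (mx j (sh p f)) := by
  rw [shf_mx_one]
  exact (summable_sh p hf1).add (shf_summable p _ hf)

lemma summable_mx2_sh (p : ℝ) (j : Fin d) {f : V d → ℝ} (hf : Summable f)
    (hf1 : Summable (mx j f)) (hf2 : Summable (mx j (mx j f))) :
    Summable (mx j (mx j (sh p f))) := by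
  rw [shf_mx_two]
  exact ((summable_sh p hf2).add (shf_summable p _ hf1)).add
    ((shf_summable p _ hf1).add (shf_summable p _ hf))

theorem ft_sh (p : ℝ) {f : V d → ℝ} (hf : Summable f) (k : Fin d → ℝ) :
    ft (sh p f) k = (j0 p k : ℂ) * ft f k := by
  rw [shf_one, shf_ft p _ hf, shf_s0]

theorem ft_mx_sh (p : ℝ) (j : Fin d) {f : V d → ℝ} (hf : Summable f)
    (hf1 : Summable (mx j f)) (k : Fin d → ℝ) :
    ft (mx j (sh p f)) k = (j0 p k : ℂ) * ft (mx j f) k + j1 p j k * ft f k := by
  rw [shf_mx_one, ft_add (summable_sh p hf1) (shf_summable p _ hf), ft_sh p hf1, shf_ft p _ hf,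
    shf_s1]

theorem ft_mx2_sh (p : ℝ) (j : Fin d) {f : V d → ℝ} (hf : Summable f)
    (hf1 : Summable (mx j f)) (hf2 : Summable (mx j (mx j f))) (k : Fin d → ℝ) :
    ft (mx j (mx j (sh p f))) k = (j0 p k : ℂ) * ft (mx j (mx j f)) k +
      2 * j1 p j k * ft (mx j f) k + j2 p j k * ft f k := by
  rw [shf_mx_two, ft_add ((summable_sh p hf2).add (shf_summable p _ hf1))
    ((shf_summable p _ hf1).add (shf_summable p _ hf)),
    ft_add (summable_sh p hf2) (shf_summable p _ hf1),
    ft_add (shf_summable p _ hf1) (shf_summable p _ hf), ft_sh p hf2, shf_ft p _ hf1,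
    shf_ft p _ hf, shf_s1, shf_s2]
  ring

end H15LE
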