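import Pool.Agent.H15.LE.Inv

/-!
PROJECT LE, Fourier block, job LF-SymX. Symmetries pass from `t` to `X` (injectivity of the Fourier transform).

PROOF of `inv_of_eq`. `ft t k = ft t (A' k)`: reindex `x ↦ A x` (`Equiv.tsum_eq`), `t (A x) = t x`,
`ch k (A x) = ch (A' k) x`. `1 + j0 T ≠ 0` (otherwise `T = X̂ (1 + j0 T) = 0` and `1 + j0 T = 1`), so
`X̂ = T/(1 + j0 T)` and `X̂ (A' k) = X̂ k`. The transform of `X ∘ A.symm` at `k` is `X̂ (A' k)`; `ft_inj`.
`ch_fl`: `(k i) * (- x i) = (- k i) * x i`. `ch_pm`: `∏ i, e^{i k_i x_{σ i}} = ∏ i, e^{i k_{σ⁻¹ i} x_i}` (`Equiv.prod_comp`).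
-/

namespace H15LE

open H5DF H95LBD H95LE MeasureTheory

variable {d : ℕ}

/-- Flip of a real vector. -/
def flr (ε : Fin d → Bool) (k : Fin d → ℝ) : Fin d → ℝ := fun i => if ε i then - k i else k i

lemma ch_fl (ε : Fin d → Bool) (k : Fin d → ℝ) (x : V d) : ch k (fl ε x) = ch (flr ε k) x := by
  unfold ch fl flr
  refine Finset.prod_congr rfl fun i _ => ?_
  by_cases h : ε i
  · simp [h]
  · simp [h]

lemma ch_pm (σ : Equiv.Perm (Fin d)) (k : Fin d → ℝ) (x : V d) :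
    ch k (pm σ x) = ch (fun i => k (σ.symm i)) x := by
  unfold ch pm
  refine Fintype.prod_equiv σ _ _ fun i => ?_
  simp

theorem inv_of_eq {p : ℝ} (A : V d ≃ V d) (A' : (Fin d → ℝ) → (Fin d → ℝ))
    (hA : ∀ k x, ch k (A x) = ch (A' k) x) (hj : ∀ k, j0 p (A' k) = j0 p k) {t X : V d → ℝ}
    (ht : Summable t) (hX : Summable X)
    (he : ∀ k, ft t k = ft X k + ft X k * ((j0 p k : ℂ) * ft t k)) (hinv : ∀ x, t (A x) = t x)
    (x : V d) : X (A x) = X x := by
  have hT : ∀ k, ft t (A' k) = ft t k := by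
    intro k
    unfold ft
    rw [← A.tsum_eq (fun y => (t y : ℂ) * ch k y)]
    refine tsum_congr fun y => ?_
    rw [hinv, hA]
  have h1 : ∀ k, (1 : ℂ) + (j0 p k : ℂ) * ft t k ≠ 0 := by
    intro k h0
    have h2 : ft t k = 0 := by
      rw [he k]
      calc ft X k + ft X k * ((j0 p k : ℂ) * ft t k) = ft X k * (1 + (j0 p k : ℂ) * ft t k) := by ring
        _ = 0 := by rw [h0, mul_zero]
    rw [h2, mul_zero, add_zero] at h0
    exact one_ne_zero h0
  have h3 : ∀ k, ft X k = ft t k / (1 + (j0 p k : ℂ) * ft t k) := by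
    intro k
    rw [eq_div_iff (h1 k)]
    calc ft X k * (1 + (j0 p k : ℂ) * ft t k) = ft X k + ft X k * ((j0 p k : ℂ) * ft t k) := by ring
      _ = ft t k := (he k).symm
  have h4 : ∀ k, ft X (A' k) = ft X k := by
    intro k
    rw [h3, h3, hT, hj]
  have h5 : ∀ k, ft (fun y => X (A.symm y)) k = ft X k := by
    intro k
    rw [← h4 k]
    unfold ft
    rw [← A.tsum_eq (fun y => (X (A.symm y) : ℂ) * ch k y)]
    refine tsum_congr fun y => ?_
    rw [hA]
    simp
  have h6 := ft_inj ((A.symm.summable_iff (f := X)).2 hX) hX h5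
  have h7 : X (A.symm (A x)) = X (A x) := congrFun h6 (A x)
  rw [Equiv.symm_apply_apply] at h7
  exact h7.symm

theorem X_fl {p : ℝ} {t X : V d → ℝ} (ht : Summable t) (hX : Summable X)
    (he : ∀ k, ft t k = ft X k + ft X k * ((j0 p k : ℂ) * ft t k))
    (hinv : ∀ ε x, t (fl ε x) = t x) (ε : Fin d → Bool) (x : V d) : X (fl ε x) = X x := by
  refine inv_of_eq (p := p) (flE ε) (flr ε) (fun k x => ch_fl ε k x) (fun k => ?_) ht hX he
    (fun x => hinv ε x) x
  unfold j0 flr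
  congr 1
  refine Finset.sum_congr rfl fun i _ => ?_
  by_cases h : ε i
  · simp [h]
  · simp [h]

theorem X_pm {p : ℝ} {t X : V d → ℝ} (ht : Summable t) (hX : Summable X)
    (he : ∀ k, ft t k = ft X k + ft X k * ((j0 p k : ℂ) * ft t k))
    (hinv : ∀ σ x, t (pm σ x) = t x) (σ : Equiv.Perm (Fin d)) (x : V d) : X (pm σ x) = X x := by
  refine inv_of_eq (p := p) (pmE σ) (fun k i => k (σ.symm i)) (fun k x => ch_pm σ k x)
    (fun k => ?_) ht hX he (fun x => hinv σ x) x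
  unfold j0
  congr 1
  exact Equiv.sum_comp σ.symm fun i => Real.cos (k i)

end H15LE
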