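import Pool.Agent.H15.LE.Sym
import Pool.Agent.H15.LE.Conv
import Pool.Agent.H15.LE.Shf
import Pool.Agent.H15.LE.Brg
import Pool.Agent.H15.LE.Num
import Pool.Agent.H15.LE.SymX
import Pool.Agent.H15.LE.Cosn
import Pool.Agent.H15.LE.Low
import Pool.Agent.H95.LBD.TauK

/-!
PROJECT LE, Fourier block. Assembly, part 1: the bound of the transform of the weighted two-point function.
-/

namespace H15LE

open H5DF H95LBD H95LE MeasureTheory

variable {d : ℕ} {p : ℝ} {X : V d → ℝ}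

lemma Inp.ws (hI : Inp d p X) : WS (tr d p) := ws_tr hI.fin

lemma Inp.sG (hI : Inp d p X) : Summable (sh p (tr d p)) := summable_sh p hI.ws.sum

lemma Inp.sG1 (hI : Inp d p X) (j : Fin d) : Summable (mx j (sh p (tr d p))) :=
  summable_mx_sh p j hI.ws.sum (hI.ws.mx j)

lemma Inp.sG2 (hI : Inp d p X) (j : Fin d) : Summable (mx j (mx j (sh p (tr d p)))) :=
  summable_mx2_sh p j hI.ws.sum (hI.ws.mx j) (hI.ws.mx2 j)

lemma Inp.eqT (hI : Inp d p X) (k : Fin d → ℝ) :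
    ft (tr d p) k = ft X k + ft X k * ((j0 p k : ℂ) * ft (tr d p) k) := by
  have h := eq_real hI
  have h1 : ft (tr d p) k = ft (fun x => X x + cr X (sh p (tr d p)) x) k := by rw [← h]
  refine h1.trans ?_
  rw [ft_add hI.sX.sum (summable_cr hI.sX.sum hI.sG), ft_cr hI.sX.sum hI.sG,
    ft_sh p hI.ws.sum]

lemma Inp.summable_mx_cr (hI : Inp d p X) (j : Fin d) :
    Summable (mx j (cr X (sh p (tr d p)))) := by
  rw [mx_cr j hI.sX.sum (hI.sX.mx j) hI.sG (hI.sG1 j)]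
  exact (summable_cr (hI.sX.mx j) hI.sG).add (summable_cr hI.sX.sum (hI.sG1 j))

lemma Inp.summable_mx2_cr (hI : Inp d p X) (j : Fin d) :
    Summable (mx j (mx j (cr X (sh p (tr d p))))) := by
  have h : mx j (mx j (cr X (sh p (tr d p)))) = fun x =>
      mx j (cr (mx j X) (sh p (tr d p))) x + mx j (cr X (mx j (sh p (tr d p)))) x := by
    rw [mx_cr j hI.sX.sum (hI.sX.mx j) hI.sG (hI.sG1 j)]
    funext x
    simp only [mx, mul_add]
  rw [h, mx_cr j (hI.sX.mx j) (hI.sX.mx2 j) hI.sG (hI.sG1 j),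
    mx_cr j hI.sX.sum (hI.sX.mx j) (hI.sG1 j) (hI.sG2 j)]
  exact ((summable_cr (hI.sX.mx2 j) hI.sG).add (summable_cr (hI.sX.mx j) (hI.sG1 j))).add
    ((summable_cr (hI.sX.mx j) (hI.sG1 j)).add (summable_cr hI.sX.sum (hI.sG2 j)))

lemma Inp.eqT1 (hI : Inp d p X) (j : Fin d) (k : Fin d → ℝ) :
    ft (mx j (tr d p)) k = ft (mx j X) k + (ft (mx j X) k * ((j0 p k : ℂ) * ft (tr d p) k) +
      ft X k * ((j0 p k : ℂ) * ft (mx j (tr d p)) k + j1 p j k * ft (tr d p) k)) := by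
  have h := eq_real hI
  have h1 : ft (mx j (tr d p)) k =
      ft (fun x => mx j X x + mx j (cr X (sh p (tr d p))) x) k := by
    congr 1
    funext x
    have := congrFun h x
    simp only [mx]
    rw [this, mul_add]
  refine h1.trans ?_
  rw [ft_add (hI.sX.mx j) (hI.summable_mx_cr j),
    ft_mx_cr j hI.sX.sum (hI.sX.mx j) hI.sG (hI.sG1 j),
    ft_sh p hI.ws.sum, ft_mx_sh p j hI.ws.sum (hI.ws.mx j)]

lemma Inp.eqT2 (hI : Inp d p X) (j : Fin d) (k : Fin d → ℝ) :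
    ft (mx j (mx j (tr d p))) k = ft (mx j (mx j X)) k +
      (ft (mx j (mx j X)) k * ((j0 p k : ℂ) * ft (tr d p) k) +
      2 * ft (mx j X) k * ((j0 p k : ℂ) * ft (mx j (tr d p)) k + j1 p j k * ft (tr d p) k) +
      ft X k * ((j0 p k : ℂ) * ft (mx j (mx j (tr d p))) k +
        2 * j1 p j k * ft (mx j (tr d p)) k + j2 p j k * ft (tr d p) k)) := by
  have h := eq_real hI
  have h1 : ft (mx j (mx j (tr d p))) k =
      ft (fun x => mx j (mx j X) x + mx j (mx j (cr X (sh p (tr d p)))) x) k := by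
    congr 1
    funext x
    have := congrFun h x
    simp only [mx]
    rw [this, mul_add, mul_add]
  refine h1.trans ?_
  rw [ft_add (hI.sX.mx2 j) (hI.summable_mx2_cr j),
    ft_mx2_cr j hI.sX.sum (hI.sX.mx j) (hI.sX.mx2 j) hI.sG (hI.sG1 j) (hI.sG2 j),
    ft_sh p hI.ws.sum, ft_mx_sh p j hI.ws.sum (hI.ws.mx j),
    ft_mx2_sh p j hI.ws.sum (hI.ws.mx j) (hI.ws.mx2 j)]

lemma Inp.tfl (hI : Inp d p X) (ε : Fin d → Bool) (x : V d) : tr d p (fl ε x) = tr d p x := by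
  unfold tr; rw [tau_fl p hI.p0 hI.p1]

lemma Inp.tpm (hI : Inp d p X) (σ : Equiv.Perm (Fin d)) (x : V d) :
    tr d p (pm σ x) = tr d p x := by
  unfold tr; rw [tau_pm p hI.p0 hI.p1]

lemma Inp.xfl (hI : Inp d p X) (ε : Fin d → Bool) (x : V d) : X (fl ε x) = X x :=
  X_fl hI.ws.sum hI.sX.sum hI.eqT hI.tfl ε x

lemma Inp.xpm (hI : Inp d p X) (σ : Equiv.Perm (Fin d)) (x : V d) : X (pm σ x) = X x :=
  X_pm hI.ws.sum hI.sX.sum hI.eqT hI.tpm σ x

/-- The susceptibility. -/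
noncomputable def chr (d : ℕ) (p : ℝ) : ℝ := ∑' x, tr d p x

lemma ft_zero (f : V d → ℝ) : ft f 0 = ((∑' x, f x : ℝ) : ℂ) := by
  unfold ft
  rw [Complex.ofReal_tsum]
  refine tsum_congr fun x => ?_
  rw [ch_zero_left, mul_one]

lemma Inp.one_le_chr (hI : Inp d p X) : 1 ≤ chr d p := by
  have h0 : tr d p 0 = 1 := by
    unfold tr; rw [tau_zero p hI.p0 hI.p1]; simp
  calc (1 : ℝ) = tr d p 0 := h0.symm
    _ ≤ _ := hI.ws.sum.le_tsum 0 fun x _ => tr_nonneg p x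

lemma Inp.xr0 (hI : Inp d p X) (k : Fin d → ℝ) : ft X k = (((ft X k).re : ℝ) : ℂ) :=
  ft_real hI.sX.sum hI.xfl k

lemma Inp.x_one (hI : Inp d p X) (k : Fin d → ℝ) : |(ft X k).re - 1| ≤ 1 / 12 := by
  have h := ft_one hI.sX hI.bX k
  rw [hI.xr0 k] at h
  rw [← Complex.ofReal_one, ← Complex.ofReal_sub, Complex.norm_real, Real.norm_eq_abs] at h
  exact h

lemma Inp.norm_x (hI : Inp d p X) (k : Fin d → ℝ) : ‖ft X k‖ ≤ 13 / 12 := by
  have h := ft_one hI.sX hI.bX k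
  have h2 : ‖ft X k‖ ≤ ‖ft X k - 1‖ + ‖(1 : ℂ)‖ := by
    calc ‖ft X k‖ = ‖(ft X k - 1) + 1‖ := by ring_nf
      _ ≤ _ := norm_add_le _ _
  rw [norm_one] at h2
  linarith

lemma Inp.norm_x' (hI : Inp d p X) (k : Fin d → ℝ) : 11 / 12 ≤ ‖ft X k‖ := by
  have h := ft_one hI.sX hI.bX k
  have h2 : ‖(1 : ℂ)‖ ≤ ‖ft X k - 1‖ + ‖ft X k‖ := by
    calc ‖(1 : ℂ)‖ = ‖ft X k - (ft X k - 1)‖ := by ring_nf
      _ ≤ ‖ft X k‖ + ‖ft X k - 1‖ := norm_sub_le _ _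
      _ = _ := add_comm _ _
  rw [norm_one] at h2
  linarith

lemma j0_zero (p : ℝ) : j0 p (0 : Fin d → ℝ) = 2 * d * p := by
  unfold j0
  simp
  ring

lemma Inp.lam (hI : Inp d p X) : 2 * d * p ≤ 12 / 11 ∧ 2 * d * p * (ft X 0).re < 1 := by
  refine lam_bd (c := chr d p) ?_ hI.one_le_chr (hI.x_one 0) ?_
  · have := hI.p0; positivity
  · have h := hI.eqT 0
    rw [ft_zero (tr d p), hI.xr0 0, j0_zero] at h
    have h2 := congrArg Complex.re h
    simp only [Complex.ofReal_re, Complex.add_re, ← Complex.ofReal_mul, ← Complex.ofReal_add] at h2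
    exact h2

lemma Inp.sq_X (hI : Inp d p X) (j : Fin d) :
    ∑' x, (x j : ℝ) ^ 2 * |X x| ≤ 1 / (12 * d) := sq_bd hI.d0 hI.sX hI.xpm hI.bX j

lemma Inp.x_diff (hI : Inp d p X) (k : Fin d → ℝ) :
    |(ft X 0).re - (ft X k).re| ≤ (∑ i, k i ^ 2) / (24 * d) := by
  refine (cos_diff hI.sX hI.xfl k).trans ?_
  have hd : (0 : ℝ) < d := by exact_mod_cast hI.d0
  have h : ∑ i, k i ^ 2 * ∑' x : V d, (x i : ℝ) ^ 2 * |X x| ≤ ∑ i, k i ^ 2 * (1 / (12 * d)) := by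
    refine Finset.sum_le_sum fun i _ => mul_le_mul_of_nonneg_left (hI.sq_X i) (by positivity)
  rw [← Finset.sum_mul] at h
  calc (∑ i, k i ^ 2 * ∑' x : V d, (x i : ℝ) ^ 2 * |X x|) / 2
      ≤ ((∑ i, k i ^ 2) * (1 / (12 * d))) / 2 := by linarith
    _ = (∑ i, k i ^ 2) / (24 * d) := by field_simp; ring

lemma Inp.nlow (hI : Inp d p X) {k : Fin d → ℝ} (hk : ∀ i, |k i| ≤ Real.pi) :
    uu k / 4 ≤ ‖1 - (j0 p k : ℂ) * ft X k‖ := by
  have h := low hI.d0 hk hI.p0 hI.lam.1 (hI.x_one 0) hI.lam.2 (hI.x_diff k)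
  refine h.trans ?_
  rw [hI.xr0 k, ← Complex.ofReal_mul, ← Complex.ofReal_one, ← Complex.ofReal_sub,
    Complex.norm_real, Real.norm_eq_abs, Complex.ofReal_re]
  exact le_abs_self _

lemma Inp.j0_le (hI : Inp d p X) (k : Fin d → ℝ) : |j0 p k| ≤ 12 / 11 := by
  have h1 : |∑ i, Real.cos (k i)| ≤ d := by
    refine (Finset.abs_sum_le_sum_abs _ _).trans ?_
    calc ∑ i, |Real.cos (k i)| ≤ ∑ _i : Fin d, (1 : ℝ) :=
          Finset.sum_le_sum fun i _ => Real.abs_cos_le_one _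
      _ = d := by simp
  unfold j0
  rw [abs_mul, abs_of_nonneg (by have := hI.p0; positivity)]
  calc 2 * p * |∑ i, Real.cos (k i)| ≤ 2 * p * d :=
        mul_le_mul_of_nonneg_left h1 (by have := hI.p0; positivity)
    _ = 2 * d * p := by ring
    _ ≤ _ := hI.lam.1

lemma Inp.p_le (hI : Inp d p X) : 2 * p ≤ 12 / 11 * (1 / d) := by
  have hd : (0 : ℝ) < d := by exact_mod_cast hI.d0
  have h := hI.lam.1
  rw [← mul_div_assoc, mul_one, le_div_iff₀ hd]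
  linarith

lemma Inp.j1_le (hI : Inp d p X) (j : Fin d) (k : Fin d → ℝ) :
    ‖j1 p j k‖ ≤ 12 / 11 * (|k j| / d) := by
  unfold j1
  rw [norm_mul, Complex.norm_I, mul_one, Complex.norm_real, Real.norm_eq_abs, abs_mul,
    abs_of_nonneg (by have := hI.p0; positivity)]
  calc 2 * p * |Real.sin (k j)| ≤ (12 / 11 * (1 / d)) * |k j| :=
        mul_le_mul hI.p_le (Real.abs_sin_le_abs) (abs_nonneg _) (by positivity)
    _ = _ := by ring

lemma Inp.j2_le (hI : Inp d p X) (j : Fin d) (k : Fin d → ℝ) :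
    ‖j2 p j k‖ ≤ 12 / 11 * (1 / d) := by
  unfold j2
  rw [Complex.norm_real, Real.norm_eq_abs, abs_mul, abs_of_nonneg (by have := hI.p0; positivity)]
  calc 2 * p * |Real.cos (k j)| ≤ 2 * p * 1 :=
        mul_le_mul_of_nonneg_left (Real.abs_cos_le_one _) (by have := hI.p0; positivity)
    _ = 2 * p := mul_one _
    _ ≤ _ := hI.p_le

lemma Inp.x1_le (hI : Inp d p X) (j : Fin d) (k : Fin d → ℝ) :
    ‖ft (mx j X) k‖ ≤ (|k j| / d) / 12 := by
  refine (ft_mx_bd hI.sX hI.xfl j k).trans ?_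
  calc |k j| * ∑' x : V d, (x j : ℝ) ^ 2 * |X x| ≤ |k j| * (1 / (12 * d)) :=
        mul_le_mul_of_nonneg_left (hI.sq_X j) (abs_nonneg _)
    _ = _ := by field_simp

lemma Inp.x2_le (hI : Inp d p X) (j : Fin d) (k : Fin d → ℝ) :
    ‖ft (mx j (mx j X)) k‖ ≤ (1 / d) / 12 := by
  refine (ft_mx2_bd hI.sX j k).trans ((hI.sq_X j).trans (le_of_eq ?_))
  field_simp

lemma Inp.qr (hI : Inp d p X) (j : Fin d) {k : Fin d → ℝ} (hk : ∀ i, |k i| ≤ Real.pi) :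
    (|k j| / d) ^ 2 ≤ 5 * uu k * (1 / d) := by
  have hd : (0 : ℝ) < d := by exact_mod_cast hI.d0
  have h1 := sq_le_uu hI.d0 hk
  have h2 : k j ^ 2 ≤ ∑ i, k i ^ 2 :=
    Finset.single_le_sum (f := fun i => k i ^ 2) (fun i _ => by positivity) (Finset.mem_univ j)
  have h3 : k j ^ 2 / d ≤ 5 * uu k := le_trans (by gcongr) h1
  rw [div_pow, sq_abs]
  calc k j ^ 2 / (d : ℝ) ^ 2 = (k j ^ 2 / d) * (1 / d) := by field_simp
    _ ≤ 5 * uu k * (1 / d) := mul_le_mul_of_nonneg_right h3 (by positivity)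

lemma Inp.t2_le (hI : Inp d p X) (j : Fin d) {k : Fin d → ℝ} (hk : ∀ i, |k i| ≤ Real.pi)
    (h0 : 0 < uu k) : ‖ft (mx j (mx j (tr d p))) k‖ ≤ 1200 * (1 / d) / uu k ^ 2 :=
  num_T2 h0 (uu_le_two hI.d0 k) (by positivity) (by positivity) (hI.nlow hk) (hI.norm_x k)
    (hI.j0_le k) (hI.x1_le j k) (hI.j1_le j k) (hI.x2_le j k) (hI.j2_le j k) (hI.qr j hk)
    (hI.eqT k) (hI.eqT1 j k) (hI.eqT2 j k)

lemma Inp.t_le (hI : Inp d p X) {k : Fin d → ℝ} (hk : ∀ i, |k i| ≤ Real.pi)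
    (h0 : 0 < uu k) : ‖ft (tr d p) k‖ ≤ 5 / uu k :=
  num_T h0 (hI.nlow hk) (hI.norm_x k) (hI.eqT k)

lemma ft_gr {f : V d → ℝ} (hf : WS f) (k : Fin d → ℝ) :
    ft (fun x => (w2 x : ℝ) * f x) k = ft f k + ∑ j, ft (mx j (mx j f)) k := by
  unfold ft
  rw [← Summable.tsum_finsetSum fun j _ => summable_ft (hf.mx2 j) k,
    ← (summable_ft hf.sum k).tsum_add (summable_sum fun j _ => summable_ft (hf.mx2 j) k)]
  refine tsum_congr fun x => ?_
  simp only [w2_eq]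
  push_cast
  rw [add_mul, one_mul, add_mul, Finset.sum_mul, Finset.sum_mul]
  congr 1
  refine Finset.sum_congr rfl fun j _ => ?_
  simp only [mx]
  push_cast
  ring

theorem Inp.g_le (hI : Inp d p X) {k : Fin d → ℝ} (hk : ∀ i, |k i| ≤ Real.pi)
    (h0 : 0 < uu k) : ‖ft (gr d p) k‖ ≤ 1210 / uu k ^ 2 := by
  have hd : (0 : ℝ) < d := by exact_mod_cast hI.d0
  have h1 : ft (gr d p) k = ft (tr d p) k + ∑ j, ft (mx j (mx j (tr d p))) k := ft_gr hI.ws k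
  rw [h1]
  refine (norm_add_le _ _).trans ?_
  have h2 : ‖∑ j, ft (mx j (mx j (tr d p))) k‖ ≤ 1200 / uu k ^ 2 := by
    refine (norm_sum_le _ _).trans ?_
    calc ∑ j, ‖ft (mx j (mx j (tr d p))) k‖ ≤ ∑ _j : Fin d, 1200 * (1 / d) / uu k ^ 2 :=
          Finset.sum_le_sum fun j _ => hI.t2_le j hk h0
      _ = 1200 / uu k ^ 2 := by simp; field_simp
  have h3 := hI.t_le hk h0
  have h4 := uu_le_two hI.d0 k
  have h5 : 5 / uu k ≤ 10 / uu k ^ 2 := by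
    rw [div_le_div_iff₀ h0 (by positivity)]
    nlinarith
  calc ‖ft (tr d p) k‖ + ‖∑ j, ft (mx j (mx j (tr d p))) k‖ ≤ 10 / uu k ^ 2 + 1200 / uu k ^ 2 := by
        linarith
    _ = 1210 / uu k ^ 2 := by ring

lemma j1_zero (p : ℝ) (j : Fin d) : j1 p j (0 : Fin d → ℝ) = 0 := by
  unfold j1; simp

lemma Inp.x1_zero (hI : Inp d p X) (j : Fin d) : ft (mx j X) 0 = 0 := by
  have h := hI.x1_le j 0
  simp only [Pi.zero_apply, abs_zero, zero_div] at h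
  exact norm_le_zero_iff.1 h

lemma Inp.t2_zero (hI : Inp d p X) (j : Fin d) :
    ‖ft (mx j (mx j (tr d p))) 0‖ ≤ 2 * (1 / d) * chr d p ^ 2 := by
  refine num_zero (by positivity) hI.one_le_chr (ft_zero _) (hI.norm_x 0) (hI.norm_x' 0)
    (hI.j0_le 0) (hI.x2_le j 0) (hI.j2_le j 0) (hI.eqT 0) ?_
  have h := hI.eqT2 j 0
  rw [j1_zero, hI.x1_zero j] at h
  calc ft (mx j (mx j (tr d p))) 0 = _ := h
    _ = _ := by ring

theorem Inp.gr_sum (hI : Inp d p X) : ∑' x, gr d p x ≤ 3 * chr d p ^ 2 := by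
  have hd : (0 : ℝ) < d := by exact_mod_cast hI.d0
  have h1 : ft (gr d p) 0 = ft (tr d p) 0 + ∑ j, ft (mx j (mx j (tr d p))) 0 := ft_gr hI.ws 0
  have h2 : ‖ft (gr d p) 0‖ ≤ chr d p + 2 * chr d p ^ 2 := by
    rw [h1]
    refine (norm_add_le _ _).trans ?_
    have h3 : ‖ft (tr d p) 0‖ = chr d p := by
      rw [ft_zero, Complex.norm_real, Real.norm_eq_abs]
      exact abs_of_nonneg (tsum_nonneg fun x => tr_nonneg p x)
    have h4 : ‖∑ j, ft (mx j (mx j (tr d p))) 0‖ ≤ 2 * chr d p ^ 2 := by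
      refine (norm_sum_le _ _).trans ?_
      calc ∑ j, ‖ft (mx j (mx j (tr d p))) 0‖ ≤ ∑ _j : Fin d, 2 * (1 / (d : ℝ)) * chr d p ^ 2 :=
            Finset.sum_le_sum fun j _ => hI.t2_zero j
        _ = 2 * chr d p ^ 2 := by simp; field_simp
    rw [h3]
    linarith
  rw [ft_zero, Complex.norm_real, Real.norm_eq_abs] at h2
  have h5 := le_abs_self (∑' x, gr d p x)
  have h6 := hI.one_le_chr
  nlinarith

end H15LE
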