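import Pool.Agent.H95.LE.Def

/-!
PROJECT LE (MP_0d9ad5_pr), note 2738, section 3 (Fourier block). Definitions.
-/

namespace H15LE

open H5DF H95LBD H95LE MeasureTheory

variable {d : ℕ}

/-- The character `e^{i k.x}`. -/
noncomputable def ch (k : Fin d → ℝ) (x : V d) : ℂ :=
  ∏ i, Complex.exp (((k i * (x i : ℝ) : ℝ) : ℂ) * Complex.I)

/-- The Fourier series of `f`. -/
noncomputable def ft (f : V d → ℝ) (k : Fin d → ℝ) : ℂ := ∑' x, (f x : ℂ) * ch k x

/-- Convolution of real functions. -/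
noncomputable def cr (f h : V d → ℝ) (x : V d) : ℝ := ∑' y, f y * h (x - y)

/-- Multiplication by the coordinate `j`. -/
noncomputable def mx (j : Fin d) (f : V d → ℝ) (x : V d) : ℝ := (x j : ℝ) * f x

/-- Convolution with `J` (real functions). -/
noncomputable def sh (p : ℝ) (f : V d → ℝ) (x : V d) : ℝ := ∑ s : Dir d, p * f (x - step s)

/-- The transform of `J`. -/
noncomputable def j0 (p : ℝ) (k : Fin d → ℝ) : ℝ := 2 * p * ∑ i, Real.cos (k i)

/-- The transform of `x_j J`. -/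
noncomputable def j1 (p : ℝ) (j : Fin d) (k : Fin d → ℝ) : ℂ :=
  ((2 * p * Real.sin (k j) : ℝ) : ℂ) * Complex.I

/-- The transform of `x_j^2 J`. -/
noncomputable def j2 (p : ℝ) (j : Fin d) (k : Fin d → ℝ) : ℂ := ((2 * p * Real.cos (k j) : ℝ) : ℂ)

/-- `1 - D^(k)`. -/
noncomputable def uu (k : Fin d → ℝ) : ℝ := 1 - (∑ i, Real.cos (k i)) / d

/-- Normalised Lebesgue measure on `(-π, π]`. -/
noncomputable def nu : Measure ℝ :=
  (ENNReal.ofReal (2 * Real.pi))⁻¹ • (volume.restrict (Set.Ioc (-Real.pi) Real.pi))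

/-- The product measure on the torus. -/
noncomputable def mu (d : ℕ) : Measure (Fin d → ℝ) := Measure.pi fun _ => nu

/-- The flip of the coordinates `i` with `ε i = true`. -/
def fl (ε : Fin d → Bool) (x : V d) : V d := fun i => if ε i then - x i else x i

/-- Permutation of the coordinates. -/
def pm (σ : Equiv.Perm (Fin d)) (x : V d) : V d := fun i => x (σ i)

/-- Weighted summability. -/
def WS (f : V d → ℝ) : Prop := Summable fun x => (w2 x : ℝ) * |f x|

/-- The real two-point function. -/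
noncomputable def tr (d : ℕ) (p : ℝ) (x : V d) : ℝ := (tau d p x).toReal

/-- The real weighted two-point function. -/
noncomputable def gr (d : ℕ) (p : ℝ) (x : V d) : ℝ := (w2 x : ℝ) * tr d p x

/-- The inputs of the Fourier block. -/
structure Inp (d : ℕ) (p : ℝ) (X : V d → ℝ) : Prop where
  d0 : 0 < d
  p0 : 0 ≤ p
  p1 : p ≤ 1
  fin : ∑' x, gt d p x ≠ ⊤
  sX : WS X
  bX : ∑' x, (w2 x : ℝ) * |X x - (if x = 0 then 1 else 0)| ≤ 1 / 12
  eq : ∀ x, (tau d p x).toReal = X x +
    ∑' b : V d × Dir d, X b.1 * p * (tau d p (x - b.1 - step b.2)).toReal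

end H15LE

/-!
PROJECT LE, Fourier block. Simple facts about characters, weights and summability.
-/

namespace H15LE

open H5DF H95LBD H95LE MeasureTheory

variable {d : ℕ}

lemma ch_add (k : Fin d → ℝ) (x y : V d) : ch k (x + y) = ch k x * ch k y := by
  unfold ch
  rw [← Finset.prod_mul_distrib]
  refine Finset.prod_congr rfl fun i _ => ?_
  rw [← Complex.exp_add]
  congr 1
  simp only [Pi.add_apply]
  push_cast
  ring

@[simp] lemma ch_zero (k : Fin d → ℝ) : ch k (0 : V d) = 1 := by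
  simp [ch]

@[simp] lemma ch_zero_left (x : V d) : ch (0 : Fin d → ℝ) x = 1 := by
  simp [ch]

lemma norm_ch (k : Fin d → ℝ) (x : V d) : ‖ch k x‖ = 1 := by
  unfold ch
  rw [norm_prod]
  refine Finset.prod_eq_one fun i _ => ?_
  exact Complex.norm_exp_ofReal_mul_I _

lemma ch_neg_mul (k : Fin d → ℝ) (x : V d) : ch k x * ch k (-x) = 1 := by
  rw [← ch_add]; simp

lemma continuous_ch (x : V d) : Continuous fun k : Fin d → ℝ => ch k x := by
  unfold ch
  fun_prop

lemma summable_abs {f : V d → ℝ} (hf : Summable f) : Summable fun x => |f x| := hf.abs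

lemma summable_ft {f : V d → ℝ} (hf : Summable f) (k : Fin d → ℝ) :
    Summable fun x => (f x : ℂ) * ch k x := by
  refine Summable.of_norm ?_
  have : (fun x => ‖(f x : ℂ) * ch k x‖) = fun x => |f x| := by
    funext x
    rw [norm_mul, norm_ch, mul_one, Complex.norm_real, Real.norm_eq_abs]
  rw [this]
  exact hf.abs

lemma norm_ft_le {f : V d → ℝ} (hf : Summable f) (k : Fin d → ℝ) :
    ‖ft f k‖ ≤ ∑' x, |f x| := by
  have h : ∀ x, ‖(f x : ℂ) * ch k x‖ = |f x| := by
    intro x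
    rw [norm_mul, norm_ch, mul_one, Complex.norm_real, Real.norm_eq_abs]
  unfold ft
  refine (norm_tsum_le_tsum_norm ?_).trans (le_of_eq ?_)
  · simp only [h]; exact hf.abs
  · simp only [h]

lemma ft_add {f g : V d → ℝ} (hf : Summable f) (hg : Summable g) (k : Fin d → ℝ) :
    ft (fun x => f x + g x) k = ft f k + ft g k := by
  unfold ft
  rw [← (summable_ft hf k).tsum_add (summable_ft hg k)]
  refine tsum_congr fun x => ?_
  push_cast
  ring

lemma ft_smul (c : ℝ) (f : V d → ℝ) (k : Fin d → ℝ) :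
    ft (fun x => c * f x) k = c * ft f k := by
  unfold ft
  rw [← tsum_mul_left]
  refine tsum_congr fun x => ?_
  push_cast
  ring

lemma one_le_w2 (x : V d) : 1 ≤ w2 x := by
  unfold w2; omega

lemma sq_le_w2 (j : Fin d) (x : V d) : ((x j : ℝ)) ^ 2 ≤ (w2 x : ℝ) := by
  have h : (x j).natAbs ^ 2 ≤ w2 x := by
    unfold w2
    have := Finset.single_le_sum (f := fun i => (x i).natAbs ^ 2) (fun i _ => Nat.zero_le _)
      (Finset.mem_univ j)
    omega
  have h2 : ((x j : ℝ)) ^ 2 = (((x j).natAbs ^ 2 : ℕ) : ℝ) := by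
    push_cast
    rw [Nat.cast_natAbs, Int.cast_abs, sq_abs]
  rw [h2]
  exact_mod_cast h

lemma abs_le_w2 (j : Fin d) (x : V d) : |(x j : ℝ)| ≤ (w2 x : ℝ) := by
  have h := sq_le_w2 j x
  have h1 : (1 : ℝ) ≤ (w2 x : ℝ) := by exact_mod_cast one_le_w2 x
  by_cases h0 : x j = 0
  · rw [h0]; simp
  · have : (1 : ℝ) ≤ |(x j : ℝ)| := by
      rw [← Int.cast_abs]
      exact_mod_cast Int.one_le_abs h0
    calc |(x j : ℝ)| ≤ |(x j : ℝ)| ^ 2 := by nlinarith
      _ = (x j : ℝ) ^ 2 := sq_abs _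
      _ ≤ _ := h

lemma WS.sum {f : V d → ℝ} (h : WS f) : Summable f := by
  refine Summable.of_norm_bounded h fun x => ?_
  rw [Real.norm_eq_abs]
  have h1 : (1 : ℝ) ≤ (w2 x : ℝ) := by exact_mod_cast one_le_w2 x
  nlinarith [abs_nonneg (f x)]

lemma WS.mx {f : V d → ℝ} (h : WS f) (j : Fin d) : Summable (mx j f) := by
  refine Summable.of_norm_bounded h fun x => ?_
  rw [Real.norm_eq_abs, H15LE.mx, abs_mul]
  exact mul_le_mul_of_nonneg_right (abs_le_w2 j x) (abs_nonneg _)

lemma WS.mx2 {f : V d → ℝ} (h : WS f) (j : Fin d) : Summable (H15LE.mx j (H15LE.mx j f)) := by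
  refine Summable.of_norm_bounded h fun x => ?_
  rw [Real.norm_eq_abs, H15LE.mx, H15LE.mx, ← mul_assoc, abs_mul]
  refine mul_le_mul_of_nonneg_right ?_ (abs_nonneg _)
  rw [← pow_two, abs_of_nonneg (by positivity)]
  exact sq_le_w2 j x

lemma WS.sq {f : V d → ℝ} (h : WS f) (j : Fin d) : Summable fun x => (x j : ℝ) ^ 2 * |f x| := by
  refine Summable.of_nonneg_of_le (fun x => by positivity) (fun x => ?_) h
  exact mul_le_mul_of_nonneg_right (sq_le_w2 j x) (abs_nonneg _)

lemma w2_eq (x : V d) : (w2 x : ℝ) = 1 + ∑ i, (x i : ℝ) ^ 2 := by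
  unfold w2
  push_cast
  congr 1
  refine Finset.sum_congr rfl fun i _ => ?_
  rw [Nat.cast_natAbs, Int.cast_abs, sq_abs]

@[simp] lemma fl_fl (ε : Fin d → Bool) (x : V d) : fl ε (fl ε x) = x := by
  funext i
  unfold fl
  by_cases h : ε i <;> simp [h]

/-- The flip as an equivalence. -/
def flE (ε : Fin d → Bool) : V d ≃ V d := ⟨fl ε, fl ε, fl_fl ε, fl_fl ε⟩

/-- The permutation of coordinates as an equivalence. -/
def pmE (σ : Equiv.Perm (Fin d)) : V d ≃ V d :=
  ⟨pm σ, pm σ.symm, fun x => by funext i; simp [pm], fun x => by funext i; simp [pm]⟩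

lemma w2_fl (ε : Fin d → Bool) (x : V d) : w2 (fl ε x) = w2 x := by
  unfold w2 fl
  congr 1
  refine Finset.sum_congr rfl fun i _ => ?_
  by_cases h : ε i <;> simp [h]

lemma w2_pm (σ : Equiv.Perm (Fin d)) (x : V d) : w2 (pm σ x) = w2 x := by
  unfold w2 pm
  congr 1
  exact Equiv.sum_comp σ fun i => (x i).natAbs ^ 2

end H15LE
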