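import Pool.Agent.H15.LE.Inv

/-!
PROJECT LE, Fourier block, job LF-Intg. The integrals of `(1 - D^)^{-m}` are bounded uniformly in the dimension.

PROOF. `int_one`: `1 - cos a ≥ (2/π²) a²` on `[-π, π]`, so `(1 - cos a)^{-1/4} ≤ C |a|^{-1/2}`, integrable
(`intervalIntegral.intervalIntegrable_rpow'`, `integrableOn_Ioc...`); in `ENNReal` with `rpow`.
`int_pow`: in `ENNReal`, `A k := (1 - cos (k i))`: `(1/d) Σ A_i ≥ ∏ A_i^{1/d}` (`Real.inner_le_nnorm_mul_nnorm`.. the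
weighted AM-GM `Real.geom_mean_le_arith_mean_weighted` or `ENNReal`/`NNReal` version), so
`(ofReal (uu k))⁻¹ ^ m ≤ ∏ i, (ofReal (1 - cos (k i)))^(-(m/d))` (if some factor is `⊤` trivial: no factor is zero).
The integral of the product is the product of the integrals (`lintegral_prod_eq_prod_lintegral_of_indepFun` with
`iIndepFun_pi`, or induction), each factor is `≤ (∫⁻ (ofReal (1 - cos a))^(-1/4) dν)^(4m/d)` (power means on a
probability space: `eLpNorm_le_eLpNorm_of_exponent_le`, `ENNReal.lintegral_rpow...` or `x^θ ≤ 1 - θ + θ x`).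
-/

namespace H15LE

open H5DF H95LBD H95LE MeasureTheory

variable {d : ℕ}

lemma Intg_nu_abs : ∀ᵐ a ∂nu, |a| ≤ Real.pi := by
  unfold nu
  refine Measure.ae_smul_measure ?_ _
  refine (ae_restrict_mem measurableSet_Ioc).mono fun a ha => ?_
  rw [abs_le]
  exact ⟨ha.1.le, ha.2⟩

lemma Intg_nu_ne : ∀ᵐ a ∂nu, a ≠ 0 := by
  unfold nu
  refine Measure.ae_smul_measure ?_ _
  exact ae_restrict_of_ae (Measure.ae_ne volume 0)

lemma mu_ae_cube : ∀ᵐ k ∂(mu d), ∀ i, |k i| ≤ Real.pi := by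
  rw [ae_all_iff]
  intro i
  exact (Measure.tendsto_eval_ae_ae (μ := fun _ : Fin d => nu) (i := i)).eventually Intg_nu_abs

lemma Intg_mu_ne : ∀ᵐ k ∂(mu d), ∀ i, k i ≠ 0 := by
  rw [ae_all_iff]
  intro i
  exact (Measure.tendsto_eval_ae_ae (μ := fun _ : Fin d => nu) (i := i)).eventually Intg_nu_ne

lemma mu_ae_ne (hd : 0 < d) : ∀ᵐ k ∂(mu d), k ≠ 0 := by
  refine Intg_mu_ne.mono fun k hk h => ?_
  exact hk ⟨0, hd⟩ (by rw [h]; rfl)

lemma Intg_abs_rpow : IntegrableOn (fun a : ℝ => |a| ^ (-(1 / 2 : ℝ)))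
    (Set.Ioc (-Real.pi) Real.pi) volume := by
  have h1 : IntervalIntegrable (fun a : ℝ => |a| ^ (-(1 / 2 : ℝ))) volume 0 Real.pi := by
    have h := intervalIntegral.intervalIntegrable_rpow' (a := 0) (b := Real.pi)
      (r := -(1 / 2 : ℝ)) (by norm_num)
    rw [intervalIntegrable_iff_integrableOn_Ioc_of_le Real.pi_pos.le] at h ⊢
    refine h.congr_fun (fun a ha => ?_) measurableSet_Ioc
    show a ^ (-(1 / 2 : ℝ)) = |a| ^ (-(1 / 2 : ℝ))
    rw [abs_of_pos ha.1]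
  have h2 : IntervalIntegrable (fun a : ℝ => |a| ^ (-(1 / 2 : ℝ))) volume (-Real.pi) 0 := by
    rw [IntervalIntegrable.iff_comp_neg]
    simp only [abs_neg, neg_neg, neg_zero]
    exact h1.symm
  have h3 := h2.trans h1
  rwa [intervalIntegrable_iff_integrableOn_Ioc_of_le (by linarith [Real.pi_pos])] at h3

theorem int_one : ∫⁻ a, (ENNReal.ofReal (1 - Real.cos a)) ^ (-(1 / 4 : ℝ)) ∂nu ≠ ⊤ := by
  set c : ℝ := (2 / Real.pi ^ 2) ^ (-(1 / 4 : ℝ)) with hc
  have hpi := Real.pi_pos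
  have hle : ∀ᵐ a ∂nu, (ENNReal.ofReal (1 - Real.cos a)) ^ (-(1 / 4 : ℝ)) ≤
      ENNReal.ofReal (c * |a| ^ (-(1 / 2 : ℝ))) := by
    filter_upwards [Intg_nu_abs, Intg_nu_ne] with a ha hne
    have h1 := Real.cos_le_one_sub_mul_cos_sq ha
    have h2 : 0 < |a| := abs_pos.2 hne
    have h3 : 0 < 2 / Real.pi ^ 2 * a ^ 2 := by positivity
    have h4 : (ENNReal.ofReal (1 - Real.cos a)) ^ (-(1 / 4 : ℝ)) ≤
        (ENNReal.ofReal (2 / Real.pi ^ 2 * a ^ 2)) ^ (-(1 / 4 : ℝ)) := by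
      rw [ENNReal.rpow_neg, ENNReal.rpow_neg, ENNReal.inv_le_inv]
      exact ENNReal.rpow_le_rpow (ENNReal.ofReal_le_ofReal (by linarith)) (by norm_num)
    refine h4.trans (le_of_eq ?_)
    rw [ENNReal.ofReal_rpow_of_pos h3]
    congr 1
    rw [Real.mul_rpow (by positivity) (by positivity), ← sq_abs a, ← Real.rpow_natCast |a| 2,
      ← Real.rpow_mul h2.le]
    norm_num [hc]
  refine ne_of_lt (lt_of_le_of_lt (lintegral_mono_ae hle) ?_)
  unfold nu
  rw [lintegral_smul_measure]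
  have h5 : IntegrableOn (fun a : ℝ => c * |a| ^ (-(1 / 2 : ℝ)))
      (Set.Ioc (-Real.pi) Real.pi) volume := Intg_abs_rpow.const_mul c
  have h6 : ∫⁻ a in Set.Ioc (-Real.pi) Real.pi, ENNReal.ofReal (c * |a| ^ (-(1 / 2 : ℝ))) < ⊤ := by
    refine lt_of_le_of_lt (lintegral_mono fun a => ?_) h5.2
    exact Real.ofReal_le_enorm _
  rw [smul_eq_mul]
  exact ENNReal.mul_lt_top (ENNReal.inv_lt_top.2 (by simp [hpi])) h6

lemma Intg_jensen {g : ℝ → ENNReal} (hg : Measurable g) {θ : ℝ} (h0 : 0 ≤ θ) (h1 : θ ≤ 1) :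
    ∫⁻ a, g a ^ θ ∂nu ≤ (∫⁻ a, g a ∂nu) ^ θ := by
  rcases h0.eq_or_lt with h | h
  · rw [← h]
    simp
  · have h2 := eLpNorm'_le_eLpNorm'_of_exponent_le (f := g) h h1 nu hg.aestronglyMeasurable
    unfold eLpNorm' at h2
    simp only [enorm_eq_self, ENNReal.rpow_one, one_div, inv_one] at h2
    have h3 := ENNReal.rpow_le_rpow h2 h.le
    rwa [← ENNReal.rpow_mul, inv_mul_cancel₀ h.ne', ENNReal.rpow_one] at h3

lemma Intg_prod {f : ℝ → ENNReal} (hf : Measurable f) :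
    ∫⁻ k, ∏ i : Fin d, f (k i) ∂(mu d) = (∫⁻ a, f a ∂nu) ^ d := by
  have hX : ProbabilityTheory.iIndepFun (fun (i : Fin d) (k : Fin d → ℝ) => f (k i)) (mu d) :=
    ProbabilityTheory.iIndepFun_pi (X := fun _ : Fin d => f) (fun _ => hf.aemeasurable)
  rw [ProbabilityTheory.lintegral_prod_eq_prod_lintegral_of_indepFun Finset.univ
    (fun (i : Fin d) (k : Fin d → ℝ) => f (k i)) hX (fun i => hf.comp (measurable_pi_apply i))]
  have h : ∀ i : Fin d, ∫⁻ k, f (k i) ∂(mu d) = ∫⁻ a, f a ∂nu := fun i =>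
    (measurePreserving_eval (fun _ : Fin d => nu) i).lintegral_comp hf
  rw [Finset.prod_congr rfl fun i _ => h i, Finset.prod_const, Finset.card_univ, Fintype.card_fin]

/-- arithmetic and geometric mean -/
lemma Intg_amgm (hd : 0 < d) (k : Fin d → ℝ) (hk : ∀ i, 0 < 1 - Real.cos (k i)) (m : ℕ) :
    (ENNReal.ofReal (uu k))⁻¹ ^ m ≤
      ∏ i : Fin d, (ENNReal.ofReal (1 - Real.cos (k i))) ^ (-((m : ℝ) / d)) := by
  have hd' : (0 : ℝ) < d := by exact_mod_cast hd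
  have h1 := Real.geom_mean_le_arith_mean_weighted (Finset.univ : Finset (Fin d))
    (fun _ => (d : ℝ)⁻¹) (fun i => 1 - Real.cos (k i)) (fun _ _ => by positivity)
    (by rw [Finset.sum_const, Finset.card_univ, Fintype.card_fin, nsmul_eq_mul,
      mul_inv_cancel₀ hd'.ne']) (fun i _ => (hk i).le)
  have h2 : ∑ i : Fin d, (d : ℝ)⁻¹ * (1 - Real.cos (k i)) = uu k := by
    rw [← Finset.mul_sum, Finset.sum_sub_distrib, Finset.sum_const, Finset.card_univ,
      Fintype.card_fin, nsmul_eq_mul, mul_one]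
    unfold uu
    field_simp
  rw [h2] at h1
  have h3 : ∏ i : Fin d, (ENNReal.ofReal (1 - Real.cos (k i))) ^ (-((m : ℝ) / d)) =
      (ENNReal.ofReal (∏ i : Fin d, (1 - Real.cos (k i)) ^ (d : ℝ)⁻¹))⁻¹ ^ m := by
    rw [ENNReal.ofReal_prod_of_nonneg (fun i _ => Real.rpow_nonneg (hk i).le _),
      ← ENNReal.inv_pow, ← Finset.prod_pow,
      ENNReal.prod_inv_distrib]
    · refine Finset.prod_congr rfl fun i _ => ?_
      rw [← ENNReal.ofReal_rpow_of_pos (hk i), ← ENNReal.rpow_natCast, ← ENNReal.rpow_mul,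
        ENNReal.rpow_neg]
      congr 2
      field_simp
    · intro i _ j _ _
      right
      exact ENNReal.pow_ne_top ENNReal.ofReal_ne_top
  rw [h3]
  exact pow_le_pow_left' (ENNReal.inv_le_inv.2 (ENNReal.ofReal_le_ofReal h1)) m

theorem int_pow : ∃ I : ENNReal, I ≠ ⊤ ∧ ∀ m d : ℕ, 4 * m ≤ d → 0 < d →
    ∫⁻ k, (ENNReal.ofReal (uu k))⁻¹ ^ m ∂(mu d) ≤ I ^ (4 * m) := by
  refine ⟨_, int_one, fun m d hmd hd => ?_⟩
  have hd' : (0 : ℝ) < d := by exact_mod_cast hd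
  have hm : (4 * m : ℝ) ≤ d := by exact_mod_cast hmd
  have hmeas : Measurable fun a : ℝ => (ENNReal.ofReal (1 - Real.cos a)) ^ (-(1 / 4 : ℝ)) := by
    fun_prop
  have hmeas2 : Measurable fun a : ℝ => (ENNReal.ofReal (1 - Real.cos a)) ^ (-((m : ℝ) / d)) := by
    fun_prop
  have h1 : ∫⁻ k, (ENNReal.ofReal (uu k))⁻¹ ^ m ∂(mu d) ≤
      ∫⁻ k, ∏ i : Fin d, (ENNReal.ofReal (1 - Real.cos (k i))) ^ (-((m : ℝ) / d)) ∂(mu d) := by
    refine lintegral_mono_ae ?_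
    filter_upwards [mu_ae_cube, Intg_mu_ne] with k hk hne
    refine Intg_amgm hd k (fun i => ?_) m
    have h2 := Real.cos_le_one_sub_mul_cos_sq (hk i)
    have h3 : 0 < 2 / Real.pi ^ 2 * (k i) ^ 2 := by
      have := Real.pi_pos
      have := hne i
      positivity
    linarith
  refine h1.trans ?_
  rw [Intg_prod hmeas2]
  have h4 : ∫⁻ a, (ENNReal.ofReal (1 - Real.cos a)) ^ (-((m : ℝ) / d)) ∂nu ≤
      (∫⁻ a, (ENNReal.ofReal (1 - Real.cos a)) ^ (-(1 / 4 : ℝ)) ∂nu) ^ (4 * m / d : ℝ) := by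
    refine le_trans (le_of_eq ?_) (Intg_jensen hmeas (θ := 4 * m / d) (by positivity)
      ((div_le_one hd').2 hm))
    refine lintegral_congr fun a => ?_
    rw [← ENNReal.rpow_mul]
    congr 1
    ring
  refine (pow_le_pow_left' h4 d).trans (le_of_eq ?_)
  rw [← ENNReal.rpow_natCast, ← ENNReal.rpow_mul, ← ENNReal.rpow_natCast]
  congr 1
  push_cast
  field_simp

end H15LE
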