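import Pool.Agent.H15.LE.Inv

/-!
PROJECT LE, Fourier block, job LF-JSq. The `L²` norm of the transform of `J`, and the final integral bounds.

PROOF. `j_sq`: `j0 p k = Σ_s p ch k (step s)`; `(j0)² = Σ_{s,s'} p² ch k (step s + step s')`, integrate with `int_ch`:
`step s + step s' = 0` iff `s' = opp s`; so the integral is `2 d p²`. (Or directly `∫ cos² = 1/2`, `∫ cos = 0`.)
`fin_bd`: Cauchy-Schwarz (`ENNReal.lintegral_mul_le_Lp_mul_Lq` with exponents 2, 2) for `‖j0‖ₑ` and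
`ofReal K ^ 3 * (ofReal (uu k))⁻¹ ^ 6`; `p √(2d) = (2dp)/√(2d) ≤ (12/11)/√(2d)`.
-/

namespace H15LE

open H5DF H95LBD H95LE MeasureTheory

variable {d : ℕ}

lemma JSq_step_inj {s t : Dir d} (h : (step s : V d) = step t) : s = t := by
  obtain ⟨i, b⟩ := s
  obtain ⟨j, c⟩ := t
  have hij : i = j := by
    by_contra hne
    have h1 := congrFun h i
    simp only [step] at h1
    rw [Pi.single_eq_same, Pi.single_eq_of_ne hne] at h1
    cases b <;> simp at h1
  subst hij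
  have h1 := congrFun h i
  simp only [step] at h1
  rw [Pi.single_eq_same, Pi.single_eq_same] at h1
  cases b <;> cases c <;> simp at h1 <;> rfl

lemma JSq_ch_step (k : Fin d → ℝ) (s : Dir d) :
    ch k (step s) = Complex.exp (((k s.1 * (if s.2 then 1 else -1) : ℝ) : ℂ) * Complex.I) := by
  unfold ch
  rw [Finset.prod_eq_single s.1]
  · simp only [step]
    rw [Pi.single_eq_same]
    cases s.2 <;> simp
  · intro i _ hi
    simp only [step]
    rw [Pi.single_eq_of_ne hi]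
    simp
  · intro h
    exact absurd (Finset.mem_univ _) h

lemma JSq_j0 (p : ℝ) (k : Fin d → ℝ) :
    (j0 p k : ℂ) = ∑ s : Dir d, (p : ℂ) * ch k (step s) := by
  rw [Fintype.sum_prod_type]
  unfold j0
  push_cast
  rw [Finset.mul_sum]
  refine Finset.sum_congr rfl fun i _ => ?_
  rw [Fintype.sum_bool, JSq_ch_step, JSq_ch_step, Complex.cos]
  simp only [if_true]
  push_cast
  simp
  ring

lemma JSq_j0_sq (p : ℝ) (k : Fin d → ℝ) :
    (((j0 p k) ^ 2 : ℝ) : ℂ) =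
      ∑ s : Dir d, ∑ t : Dir d, (p : ℂ) ^ 2 * ch k (step s + step t) := by
  push_cast
  rw [JSq_j0, pow_two, Finset.sum_mul_sum]
  refine Finset.sum_congr rfl fun s _ => Finset.sum_congr rfl fun t _ => ?_
  rw [ch_add]
  ring

lemma JSq_integrable_ch (x : V d) : Integrable (fun k => ch k x) (mu d) :=
  Integrable.of_bound (continuous_ch x).aestronglyMeasurable 1
    (Filter.Eventually.of_forall fun k => (norm_ch k x).le)

lemma JSq_int (p : ℝ) : ∫ k, (((j0 p k) ^ 2 : ℝ) : ℂ) ∂(mu d) = ((2 * d * p ^ 2 : ℝ) : ℂ) := by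
  simp_rw [JSq_j0_sq]
  rw [integral_finsetSum _ fun s _ => integrable_finsetSum _ fun t _ =>
    (JSq_integrable_ch _).const_mul _]
  have h1 : ∀ s : Dir d, ∫ k, ∑ t : Dir d, (p : ℂ) ^ 2 * ch k (step s + step t) ∂(mu d)
      = (p : ℂ) ^ 2 := by
    intro s
    rw [integral_finsetSum _ fun t _ => (JSq_integrable_ch _).const_mul _]
    have h2 : ∀ t : Dir d, ∫ k, (p : ℂ) ^ 2 * ch k (step s + step t) ∂(mu d)
        = if t = opp s then (p : ℂ) ^ 2 else 0 := by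
      intro t
      rw [integral_const_mul, int_ch]
      by_cases h : t = opp s
      · subst h
        rw [step_opp]
        simp
      · rw [if_neg h, if_neg, mul_zero]
        intro h3
        apply h
        apply JSq_step_inj
        rw [step_opp]
        exact (neg_eq_of_add_eq_zero_right h3).symm
    rw [Finset.sum_congr rfl fun t _ => h2 t]
    simp
  rw [Finset.sum_congr rfl fun s _ => h1 s, Finset.sum_const, Finset.card_univ]
  rw [Fintype.card_prod, Fintype.card_fin, Fintype.card_bool, nsmul_eq_mul]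
  push_cast
  ring

lemma JSq_cont (p : ℝ) : Continuous fun k : Fin d → ℝ => j0 p k := by
  unfold j0
  fun_prop

lemma JSq_bound (p : ℝ) (k : Fin d → ℝ) : |j0 p k| ≤ 2 * |p| * d := by
  unfold j0
  rw [abs_mul, abs_mul, abs_two]
  refine mul_le_mul_of_nonneg_left ?_ (by positivity)
  refine (Finset.abs_sum_le_sum_abs _ _).trans ?_
  refine (Finset.sum_le_sum fun i _ => Real.abs_cos_le_one (k i)).trans ?_
  simp

theorem j_sq {p : ℝ} (h0 : 0 ≤ p) :
    ∫⁻ k, ‖(j0 p k : ℂ)‖ₑ ^ 2 ∂(mu d) = ENNReal.ofReal (2 * d * p ^ 2) := by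
  have h1 : ∀ k : Fin d → ℝ, ‖(j0 p k : ℂ)‖ₑ ^ 2 = ENNReal.ofReal ((j0 p k) ^ 2) := by
    intro k
    rw [← ofReal_norm, Complex.norm_real, Real.norm_eq_abs,
      ← ENNReal.ofReal_pow (abs_nonneg _), sq_abs]
  have hi : Integrable (fun k : Fin d → ℝ => (j0 p k) ^ 2) (mu d) := by
    refine Integrable.of_bound ((JSq_cont p).pow 2).aestronglyMeasurable ((2 * |p| * d) ^ 2)
      (Filter.Eventually.of_forall fun k => ?_)
    rw [Real.norm_eq_abs, abs_pow]
    exact pow_le_pow_left₀ (abs_nonneg _) (JSq_bound p k) 2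
  simp_rw [h1]
  rw [← ofReal_integral_eq_lintegral_ofReal hi (Filter.Eventually.of_forall fun k => sq_nonneg _)]
  congr 1
  have h2 := JSq_int (d := d) p
  rw [integral_complex_ofReal] at h2
  exact_mod_cast h2

lemma JSq_arith {p : ℝ} (h0 : 0 ≤ p) (hd : 0 < d) (hl : 2 * d * p ≤ 12 / 11) :
    Real.sqrt (2 * d * p ^ 2) ≤ 2 / Real.sqrt (2 * d) := by
  have hd' : (0 : ℝ) < 2 * d := by
    have : (0 : ℝ) < d := by exact_mod_cast hd
    positivity
  rw [Real.sqrt_mul hd'.le, Real.sqrt_sq h0]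
  have hs : 0 < Real.sqrt (2 * d) := Real.sqrt_pos.mpr hd'
  rw [le_div_iff₀ hs]
  have h1 : Real.sqrt (2 * d) * p * Real.sqrt (2 * d) = 2 * d * p := by
    have := Real.mul_self_sqrt hd'.le
    calc Real.sqrt (2 * d) * p * Real.sqrt (2 * d)
        = (Real.sqrt (2 * d) * Real.sqrt (2 * d)) * p := by ring
      _ = 2 * d * p := by rw [this]
  rw [h1]
  linarith

theorem fin_bd {p K : ℝ} (h0 : 0 ≤ p) (hd : 0 < d) (hK : 0 ≤ K) (hl : 2 * d * p ≤ 12 / 11)
    {M : ENNReal} (hM : ∫⁻ k, (ENNReal.ofReal (uu k))⁻¹ ^ 12 ∂(mu d) ≤ M)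
    {F : (Fin d → ℝ) → ℂ} (hF : ∀ᵐ k ∂(mu d), ‖F k‖ₑ ≤ ENNReal.ofReal K * (ENNReal.ofReal (uu k))⁻¹ ^ 2) :
    ∫⁻ k, ‖(j0 p k : ℂ) * F k ^ 3‖ₑ ∂(mu d) ≤
      ENNReal.ofReal (2 / Real.sqrt (2 * d)) * (ENNReal.ofReal K ^ 3 * M ^ (1 / 2 : ℝ)) := by
  have hu : Continuous fun k : Fin d → ℝ => uu k := by
    unfold uu
    fun_prop
  have hum : Measurable fun k : Fin d → ℝ => (ENNReal.ofReal (uu k))⁻¹ :=
    (ENNReal.measurable_ofReal.comp hu.measurable).inv
  have hjm : Measurable fun k : Fin d → ℝ => ‖(j0 p k : ℂ)‖ₑ :=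
    (Complex.continuous_ofReal.comp (JSq_cont p)).measurable.enorm
  have hgm : Measurable fun k : Fin d → ℝ =>
      ENNReal.ofReal K ^ 3 * (ENNReal.ofReal (uu k))⁻¹ ^ 6 := (hum.pow_const 6).const_mul _
  have h1 : ∫⁻ k, ‖(j0 p k : ℂ) * F k ^ 3‖ₑ ∂(mu d) ≤
      ∫⁻ k, ((fun k : Fin d → ℝ => ‖(j0 p k : ℂ)‖ₑ) *
        fun k : Fin d → ℝ => ENNReal.ofReal K ^ 3 * (ENNReal.ofReal (uu k))⁻¹ ^ 6) k ∂(mu d) := by
    refine lintegral_mono_ae ?_
    filter_upwards [hF] with k hk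
    rw [enorm_mul, enorm_pow, Pi.mul_apply]
    refine mul_le_mul_right ?_ _
    calc ‖F k‖ₑ ^ 3 ≤ (ENNReal.ofReal K * (ENNReal.ofReal (uu k))⁻¹ ^ 2) ^ 3 :=
          pow_le_pow_left₀ zero_le hk 3
      _ = ENNReal.ofReal K ^ 3 * (ENNReal.ofReal (uu k))⁻¹ ^ 6 := by
          rw [mul_pow, ← pow_mul]
  refine h1.trans ?_
  refine (ENNReal.lintegral_mul_le_Lp_mul_Lq (mu d) Real.HolderConjugate.two_two
    hjm.aemeasurable hgm.aemeasurable).trans ?_
  refine mul_le_mul' ?_ ?_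
  · have h2 : ∫⁻ k, ‖(j0 p k : ℂ)‖ₑ ^ (2 : ℝ) ∂(mu d) = ENNReal.ofReal (2 * d * p ^ 2) := by
      rw [← j_sq h0]
      refine lintegral_congr fun k => ?_
      exact ENNReal.rpow_two _
    rw [h2, ENNReal.ofReal_rpow_of_nonneg (by positivity) (by norm_num)]
    refine ENNReal.ofReal_le_ofReal ?_
    rw [← Real.sqrt_eq_rpow]
    exact JSq_arith h0 hd hl
  · have h3 : ∀ k : Fin d → ℝ, (ENNReal.ofReal K ^ 3 * (ENNReal.ofReal (uu k))⁻¹ ^ 6) ^ (2 : ℝ)
        = ENNReal.ofReal K ^ 6 * (ENNReal.ofReal (uu k))⁻¹ ^ 12 := by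
      intro k
      rw [ENNReal.rpow_two, mul_pow, ← pow_mul, ← pow_mul]
    simp_rw [h3]
    rw [lintegral_const_mul _ (hum.pow_const 12), ENNReal.mul_rpow_of_nonneg _ _ (by norm_num)]
    refine mul_le_mul' (le_of_eq ?_) (ENNReal.rpow_le_rpow hM (by norm_num))
    have h4 : ENNReal.ofReal K ^ 6 = (ENNReal.ofReal K ^ 3) ^ (2 : ℝ) := by
      rw [ENNReal.rpow_two, ← pow_mul]
    rw [h4, ← ENNReal.rpow_mul]
    norm_num

end H15LE
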