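import Pool.Agent.H15.LE.Asm
import Pool.Agent.H15.LE.Intg
import Pool.Agent.H15.LE.JSq

/-!
PROJECT LE, Fourier block. Assembly, part 2: the outputs.
-/

namespace H15LE

open H5DF H95LBD H95LE MeasureTheory

variable {d : ℕ} {p : ℝ} {X : V d → ℝ}

lemma Inp.ae_le (hI : Inp d p X) :
    ∀ᵐ k ∂(mu d), ‖ft (gr d p) k‖ₑ ≤ ENNReal.ofReal 1210 * (ENNReal.ofReal (uu k))⁻¹ ^ 2 := by
  filter_upwards [mu_ae_cube (d := d), mu_ae_ne hI.d0] with k hk hk0
  have hu := uu_pos hI.d0 hk hk0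
  have h := hI.g_le hk hu
  rw [← ENNReal.ofReal_inv_of_pos hu, ← ENNReal.ofReal_pow (by positivity),
    ← ENNReal.ofReal_mul (by positivity), ← ofReal_norm]
  refine ENNReal.ofReal_le_ofReal (h.trans (le_of_eq ?_))
  field_simp

lemma Inp.four (hI : Inp d p X) {M : ENNReal}
    (hM : ∫⁻ k, (ENNReal.ofReal (uu k))⁻¹ ^ 8 ∂(mu d) ≤ M) :
    g4 d p ≤ ENNReal.ofReal 1210 ^ 4 * M := by
  have hg := summable_gr hI.fin
  rw [g4_eq hI.fin (fun f g hf hg => summable_cr hf hg) (fun f g hf hg x => summable_cr_term hf hg x)]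
  refine (val_le (summable_cr hg (summable_cr hg (summable_cr hg hg))) 0).trans ?_
  have h1 : ∀ k, ft (cr (gr d p) (cr (gr d p) (cr (gr d p) (gr d p)))) k = ft (gr d p) k ^ 4 := by
    intro k
    rw [ft_cr hg (summable_cr hg (summable_cr hg hg)), ft_cr hg (summable_cr hg hg), ft_cr hg hg]
    ring
  calc ∫⁻ k, ‖ft (cr (gr d p) (cr (gr d p) (cr (gr d p) (gr d p)))) k‖ₑ ∂(mu d)
      ≤ ∫⁻ k, ENNReal.ofReal 1210 ^ 4 * (ENNReal.ofReal (uu k))⁻¹ ^ 8 ∂(mu d) := by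
        refine lintegral_mono_ae ?_
        filter_upwards [hI.ae_le] with k hk
        rw [h1 k, enorm_pow]
        calc ‖ft (gr d p) k‖ₑ ^ 4
            ≤ (ENNReal.ofReal 1210 * (ENNReal.ofReal (uu k))⁻¹ ^ 2) ^ 4 := by gcongr
          _ = _ := by rw [mul_pow, ← pow_mul]
    _ = ENNReal.ofReal 1210 ^ 4 * ∫⁻ k, (ENNReal.ofReal (uu k))⁻¹ ^ 8 ∂(mu d) := by
        rw [lintegral_const_mul' _ _ (by simp)]
    _ ≤ _ := by gcongr

lemma Inp.three (hI : Inp d p X) {M : ENNReal}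
    (hM : ∫⁻ k, (ENNReal.ofReal (uu k))⁻¹ ^ 12 ∂(mu d) ≤ M) (x : V d) :
    jggg d p x ≤ ENNReal.ofReal (2 / Real.sqrt (2 * d)) *
      (ENNReal.ofReal 1210 ^ 3 * M ^ (1 / 2 : ℝ)) := by
  have hg := summable_gr hI.fin
  rw [jggg_eq hI.p0 hI.fin (fun f g hf hg => summable_cr hf hg)
    (fun f g hf hg x => summable_cr_term hf hg x)]
  have hg3 := summable_cr hg (summable_cr hg hg)
  refine (val_le (summable_sh p hg3) x).trans ?_
  have h1 : ∀ k, ft (sh p (cr (gr d p) (cr (gr d p) (gr d p)))) k =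
      (j0 p k : ℂ) * ft (gr d p) k ^ 3 := by
    intro k
    rw [ft_sh p hg3, ft_cr hg (summable_cr hg hg), ft_cr hg hg]
    ring
  simp only [h1]
  exact fin_bd hI.p0 hI.d0 (by norm_num) hI.lam.1 hM hI.ae_le

theorem four_one : ∃ K0 : ℝ, 2 ≤ K0 ∧ ∀ b0 : ℝ, 0 < b0 → ∃ d0 : ℕ, ∀ d, d0 ≤ d → ∀ (p : ℝ)
    (X : V d → ℝ), Inp d p X →
      g4 d p ≤ ENNReal.ofReal (K0 / 2) ∧ ∀ x, jggg d p x ≤ ENNReal.ofReal (b0 / 2) := by
  obtain ⟨I, hI, hI2⟩ := int_pow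
  have h8 : ENNReal.ofReal 1210 ^ 4 * I ^ 32 ≠ ⊤ := by finiteness
  have h12 : ENNReal.ofReal 1210 ^ 3 * (I ^ 48) ^ (1 / 2 : ℝ) ≠ ⊤ := by
    refine ENNReal.mul_ne_top (by finiteness) (ENNReal.rpow_ne_top_of_nonneg (by norm_num) ?_)
    finiteness
  set A := (ENNReal.ofReal 1210 ^ 4 * I ^ 32).toReal with hA
  set B := (ENNReal.ofReal 1210 ^ 3 * (I ^ 48) ^ (1 / 2 : ℝ)).toReal with hB
  have hB0 : 0 ≤ B := ENNReal.toReal_nonneg
  have hA0 : 0 ≤ A := ENNReal.toReal_nonneg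
  refine ⟨2 * A + 2, by linarith, ?_⟩
  intro b0 hb0
  obtain ⟨n, hn⟩ := exists_nat_ge ((4 * B / b0) ^ 2)
  refine ⟨max 48 n, ?_⟩
  intro d hd p X h
  have hd48 : 48 ≤ d := (le_max_left _ _).trans hd
  have hdn : n ≤ d := (le_max_right _ _).trans hd
  constructor
  · refine (h.four (M := I ^ 32) ?_).trans ?_
    · exact hI2 8 d (by omega) h.d0
    · rw [← ENNReal.ofReal_toReal h8]
      refine ENNReal.ofReal_le_ofReal ?_
      rw [← hA]; linarith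
  · intro x
    refine (h.three (M := I ^ 48) (hI2 12 d (by omega) h.d0) x).trans ?_
    rw [← ENNReal.ofReal_toReal h12, ← hB, ← ENNReal.ofReal_mul (by positivity)]
    refine ENNReal.ofReal_le_ofReal ?_
    have hd0 : (0 : ℝ) < d := by exact_mod_cast h.d0
    have hs : 0 < Real.sqrt (2 * d) := Real.sqrt_pos.2 (by positivity)
    have h1 : 4 * B / b0 ≤ Real.sqrt (2 * d) := by
      refine Real.le_sqrt_of_sq_le ?_
      have : (n : ℝ) ≤ d := by exact_mod_cast hdn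
      linarith
    rw [div_le_iff₀ hb0] at h1
    rw [div_mul_eq_mul_div, div_le_div_iff₀ hs (by norm_num)]
    nlinarith

theorem four_two (h : Inp d p X) : 2 * d * p ≤ 12 / 11 ∧
    ∑' x, gt d p x ≤ ENNReal.ofReal 3 * (∑' x, tau d p x) ^ 2 := by
  refine ⟨h.lam.1, ?_⟩
  have h1 : ∑' x, gt d p x = ENNReal.ofReal (∑' x, gr d p x) := by
    rw [ENNReal.ofReal_tsum_of_nonneg (gr_nonneg p) (summable_gr h.fin)]
    exact tsum_congr fun x => gt_eq h.fin x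
  have h2 : ∑' x, tau d p x = ENNReal.ofReal (chr d p) := by
    unfold chr
    rw [ENNReal.ofReal_tsum_of_nonneg (tr_nonneg p) h.ws.sum]
    exact tsum_congr fun x => tau_eq h.fin x
  rw [h1, h2, ← ENNReal.ofReal_pow (by have := h.one_le_chr; linarith),
    ← ENNReal.ofReal_mul (by norm_num)]
  exact ENNReal.ofReal_le_ofReal h.gr_sum

end H15LE
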