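import Pool.Agent.H15.LE.Base

/-!
PROJECT LE, Fourier block, job LF-Inv. Fourier inversion on `Z^d`.

PROOF. `nu` is a probability measure: `volume (Ioc (-π) π) = ofReal (2π)`. `int_ch`: product over the coordinates
(`MeasureTheory.integral_fintype_prod_eq_prod`), in one variable `∫ e^{i k n} dν = [n = 0]` (for `n ≠ 0` by
`integral_exp_mul_complex` or via `fourier`/`integral_cos`, `integral_sin`). `inversion`: exchange sum and integral
(`integral_tsum`/`hasSum_integral_of_summable_integral_norm`; the terms have norm `|f y|`, `mu` is a probability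
measure), `ch k y * ch k (-x) = ch k (y - x)`. `ft_inj` and `val_le` (`enorm_integral_le_lintegral_enorm`,
`‖ft f k * ch k (-x)‖ₑ = ‖ft f k‖ₑ`) follow.
`continuous_ft`: `continuous_tsum`.
-/

namespace H15LE

open H5DF H95LBD H95LE MeasureTheory

variable {d : ℕ}

instance nu_prob : IsProbabilityMeasure nu := by
  constructor
  unfold nu
  rw [Measure.smul_apply, Measure.restrict_apply MeasurableSet.univ, Set.univ_inter,
    Real.volume_Ioc, smul_eq_mul]
  have h : Real.pi - -Real.pi = 2 * Real.pi := by ring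
  rw [h]
  refine ENNReal.inv_mul_cancel ?_ ENNReal.ofReal_ne_top
  have := Real.pi_pos
  simp only [ne_eq, ENNReal.ofReal_eq_zero, not_le]
  positivity

instance mu_prob : IsProbabilityMeasure (mu d) := by
  unfold mu
  infer_instance

lemma Inv_one (n : ℤ) :
    ∫ t, Complex.exp (((t * (n : ℝ) : ℝ) : ℂ) * Complex.I) ∂nu = if n = 0 then 1 else 0 := by
  by_cases hn : n = 0
  · subst hn
    simp
  · rw [if_neg hn]
    unfold nu
    rw [integral_smul_measure]
    have hpi := Real.pi_pos
    have hle : -Real.pi ≤ Real.pi := by linarith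
    rw [← intervalIntegral.integral_of_le hle]
    have hc : ((n : ℂ) * Complex.I) ≠ 0 :=
      mul_ne_zero (by exact_mod_cast hn) Complex.I_ne_zero
    have h1 : (fun t : ℝ => Complex.exp (((t * (n : ℝ) : ℝ) : ℂ) * Complex.I)) =
        fun t : ℝ => Complex.exp (((n : ℂ) * Complex.I) * (t : ℂ)) := by
      funext t
      congr 1
      push_cast
      ring
    rw [h1, integral_exp_mul_complex hc]
    have h2 : Complex.exp (((n : ℂ) * Complex.I) * (Real.pi : ℂ)) =
        Complex.exp (((n : ℂ) * Complex.I) * ((-Real.pi : ℝ) : ℂ)) := by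
      rw [Complex.exp_eq_exp_iff_exists_int]
      exact ⟨n, by push_cast; ring⟩
    rw [h2, sub_self, zero_div, smul_zero]

theorem int_ch (x : V d) : ∫ k, ch k x ∂(mu d) = if x = 0 then 1 else 0 := by
  unfold ch mu
  rw [integral_fintype_prod_eq_prod (𝕜 := ℂ)
    (fun i (t : ℝ) => Complex.exp (((t * (x i : ℝ) : ℝ) : ℂ) * Complex.I))]
  by_cases hx : x = 0
  · rw [if_pos hx]
    refine Finset.prod_eq_one fun i _ => ?_
    rw [Inv_one, if_pos (by rw [hx]; rfl)]
  · rw [if_neg hx]
    obtain ⟨i, hi⟩ : ∃ i, x i ≠ 0 := Function.ne_iff.mp hx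
    refine Finset.prod_eq_zero (Finset.mem_univ i) ?_
    rw [Inv_one, if_neg hi]

theorem continuous_ft {f : V d → ℝ} (hf : Summable f) : Continuous (ft f) := by
  unfold ft
  refine continuous_tsum (u := fun x => |f x|) (fun x => continuous_const.mul (continuous_ch x))
    hf.abs fun x k => ?_
  rw [norm_mul, norm_ch, mul_one, Complex.norm_real, Real.norm_eq_abs]

lemma Inv_int (c : ℂ) (x : V d) : Integrable (fun k => c * ch k x) (mu d) := by
  refine Integrable.mono' (integrable_const ‖c‖)
    (continuous_const.mul (continuous_ch x)).aestronglyMeasurable ?_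
  refine Filter.Eventually.of_forall fun k => ?_
  rw [norm_mul, norm_ch, mul_one]

theorem inversion {f : V d → ℝ} (hf : Summable f) (x : V d) :
    ∫ k, ft f k * ch k (-x) ∂(mu d) = (f x : ℂ) := by
  have h1 : (fun k : Fin d → ℝ => ft f k * ch k (-x)) =
      fun k => ∑' y, (f y : ℂ) * ch k (y - x) := by
    funext k
    unfold ft
    rw [← tsum_mul_right]
    refine tsum_congr fun y => ?_
    rw [mul_assoc, ← ch_add, sub_eq_add_neg]
  rw [h1, ← integral_tsum_of_summable_integral_norm (fun y => Inv_int _ _) ?_]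
  · have h2 : ∀ y, ∫ k, (f y : ℂ) * ch k (y - x) ∂(mu d) = if y = x then (f x : ℂ) else 0 := by
      intro y
      rw [integral_const_mul, int_ch]
      by_cases h : y = x
      · subst h
        simp
      · rw [if_neg (sub_ne_zero.mpr h), if_neg h, mul_zero]
    rw [tsum_congr h2, tsum_ite_eq]
  · have h3 : (fun y => ∫ k, ‖(f y : ℂ) * ch k (y - x)‖ ∂(mu d)) = fun y => |f y| := by
      funext y
      have : (fun k : Fin d → ℝ => ‖(f y : ℂ) * ch k (y - x)‖) = fun _ => |f y| := by
        funext k
        rw [norm_mul, norm_ch, mul_one, Complex.norm_real, Real.norm_eq_abs]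
      rw [this]
      simp
    rw [h3]
    exact hf.abs

theorem ft_inj {f g : V d → ℝ} (hf : Summable f) (hg : Summable g) (h : ∀ k, ft f k = ft g k) :
    f = g := by
  funext x
  have h1 := inversion hf x
  have h2 := inversion hg x
  simp only [h] at h1
  exact_mod_cast h1.symm.trans h2

theorem val_le {f : V d → ℝ} (hf : Summable f) (x : V d) :
    ENNReal.ofReal (f x) ≤ ∫⁻ k, ‖ft f k‖ₑ ∂(mu d) := by
  have h1 := enorm_integral_le_lintegral_enorm (μ := mu d)
    (fun k : Fin d → ℝ => ft f k * ch k (-x))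
  rw [inversion hf x] at h1
  have h2 : ∀ k : Fin d → ℝ, ‖ft f k * ch k (-x)‖ₑ = ‖ft f k‖ₑ := by
    intro k
    rw [← ofReal_norm, ← ofReal_norm, norm_mul, norm_ch, mul_one]
  simp only [h2] at h1
  refine le_trans ?_ h1
  rw [← ofReal_norm, Complex.norm_real, Real.norm_eq_abs]
  exact ENNReal.ofReal_le_ofReal (le_abs_self _)

end H15LE
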