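import Pool.Agent.H15.LE.Base

/-!
PROJECT LE, Fourier block, job LF-Sym. Symmetries of the two-point function.

PROOF. For an edge `e = (x, i)` let `φ e` be the edge joining the images of its ends: for a permutation
`φ (x, i) = (pm σ x, σ⁻¹ i)` (`pm σ (x + e_i) = pm σ x + e_{σ⁻¹ i}`), for a flip
`φ (x, i) = if ε i then (fl ε x - e_i, i) else (fl ε x, i)`, i.e. `edge (fl ε x) (i, !ε i)`.
`φ` is a bijection of `Ed d`, `ω ↦ ω ∘ φ` preserves `perc d p` (i.i.d.; see how `shift` is treated in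
`Pool/Agent/H5/DF` or `DG`, `Measure.infinitePi_map_piCongrLeft` or `measurePreserving`...), and `G (ω ∘ φ)` is
the pull-back of `G ω` under `fl ε` (resp. `pm σ`), which fixes `0`. So `x ∈ cluster (ω ∘ φ) 0 ↔ fl ε x ∈ cluster ω 0`.
It is a good idea to prove one general lemma for `ψ : V d ≃ V d` with `ψ 0 = 0` and `φ : Ed d ≃ Ed d` such that
`(G (ω ∘ φ)).Adj x y ↔ (G ω).Adj (ψ x) (ψ y)`.
-/

namespace H15LE

open H5DF H95LBD H95LE MeasureTheory

variable {d : ℕ}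

/-- The induced map of the edges. -/
def symF (ψ : V d → V d) (ρ : Dir d → Dir d) (e : Ed d) : Ed d := edge (ψ e.1) (ρ (e.2, true))

lemma symF_edge {ψ : V d → V d} {ρ : Dir d → Dir d} (h1 : ∀ x s, ψ (x + step s) = ψ x + step (ρ s))
    (h2 : ∀ s, ρ (opp s) = opp (ρ s)) (x : V d) (s : Dir d) :
    symF ψ ρ (edge x s) = edge (ψ x) (ρ s) := by
  obtain ⟨i, b⟩ := s
  cases b
  · have h3 : (i, true) = opp ((i, false) : Dir d) := rfl
    show edge (ψ (x + step (i, false))) (ρ (i, true)) = edge (ψ x) (ρ (i, false))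
    rw [h3, h2, h1, edge_opp]
  · rfl

lemma sym_perc (p : ℝ) (h0 : 0 ≤ p) (h1 : p ≤ 1) (φ : Ed d ≃ Ed d) :
    (perc d p).map (fun (ω : Cfg d) e => ω (φ e)) = perc d p := by
  have := isProb_bern h0 h1
  have h := Measure.infinitePi_map_piCongrLeft (fun _ : Ed d => bern p) φ.symm
  have h2 : (MeasurableEquiv.piCongrLeft (fun _ : Ed d => Bool) φ.symm :
      Cfg d → Cfg d) = fun (ω : Cfg d) e => ω (φ e) := by
    funext ω e
    have := Equiv.piCongrLeft_apply_apply (fun _ : Ed d => Bool) φ.symm ω (φ e)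
    rw [Equiv.symm_apply_apply] at this
    rw [MeasurableEquiv.coe_piCongrLeft, this]
  rw [h2] at h
  exact h

theorem sym_tau (p : ℝ) (h0 : 0 ≤ p) (h1 : p ≤ 1) (ψ ψ' : V d → V d) (ρ ρ' : Dir d → Dir d)
    (a1 : ∀ x s, ψ (x + step s) = ψ x + step (ρ s)) (a2 : ∀ s, ρ (opp s) = opp (ρ s))
    (b1 : ∀ x s, ψ' (x + step s) = ψ' x + step (ρ' s)) (b2 : ∀ s, ρ' (opp s) = opp (ρ' s))
    (c1 : ∀ x, ψ' (ψ x) = x) (c2 : ∀ x, ψ (ψ' x) = x) (c3 : ∀ s, ρ' (ρ s) = s)
    (c4 : ∀ s, ρ (ρ' s) = s) (z : ψ 0 = 0) (x : V d) : tau d p (ψ x) = tau d p x := by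
  have e1 : ∀ e : Ed d, symF ψ' ρ' (symF ψ ρ e) = e := by
    intro e
    show symF ψ' ρ' (edge (ψ e.1) (ρ (e.2, true))) = e
    rw [symF_edge b1 b2, c1, c3]
    rfl
  have e2 : ∀ e : Ed d, symF ψ ρ (symF ψ' ρ' e) = e := by
    intro e
    show symF ψ ρ (edge (ψ' e.1) (ρ' (e.2, true))) = e
    rw [symF_edge a1 a2, c2, c4]
    rfl
  have hp := sym_perc p h0 h1 (⟨symF ψ ρ, symF ψ' ρ', e1, e2⟩ : Ed d ≃ Ed d)
  have hT : Measurable fun (ω : Cfg d) e => ω ((⟨symF ψ ρ, symF ψ' ρ', e1, e2⟩ : Ed d ≃ Ed d) e) :=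
    measurable_pi_lambda _ fun _ => measurable_pi_apply _
  have hm : MeasurableSet {ω : Cfg d | x ∈ cluster ω 0} := meas_reach 0 x
  have h := Measure.map_apply (μ := perc d p) hT hm
  rw [hp] at h
  unfold tau
  rw [h]
  congr 1
  ext ω
  have hiso : (G (fun e => ω (symF ψ ρ e))).Reachable 0 x ↔ (G ω).Reachable (ψ 0) (ψ x) := by
    have key : ∀ u v : V d, (G (fun e => ω (symF ψ ρ e))).Adj u v ↔ (G ω).Adj (ψ u) (ψ v) := by
      intro u v
      constructor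
      · rintro ⟨s, rfl, hs⟩
        refine ⟨ρ s, a1 u s, ?_⟩
        rw [← symF_edge a1 a2]
        exact hs
      · rintro ⟨s, hv, hs⟩
        refine ⟨ρ' s, ?_, ?_⟩
        · rw [← c1 v, hv, b1, c1]
        · show ω (symF ψ ρ (edge u (ρ' s))) = true
          rw [symF_edge a1 a2, c4]
          exact hs
    let I : G (fun e => ω (symF ψ ρ e)) ≃g G ω :=
      { toEquiv := ⟨ψ, ψ', c1, c2⟩
        map_rel_iff' := fun {u v} => (key u v).symm }
    exact (SimpleGraph.Iso.reachable_iff (φ := I) (u := 0) (v := x)).symm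
  rw [z] at hiso
  exact hiso.symm

theorem tau_fl (p : ℝ) (h0 : 0 ≤ p) (h1 : p ≤ 1) (ε : Fin d → Bool) (x : V d) :
    tau d p (fl ε x) = tau d p x := by
  have a1 : ∀ (x : V d) (s : Dir d), fl ε (x + step s) = fl ε x + step (s.1, xor s.2 (ε s.1)) := by
    intro x s
    obtain ⟨i, b⟩ := s
    funext j
    by_cases hj : j = i
    · subst hj
      cases b <;> cases hε : ε j <;> simp [fl, step, hε] <;> ring
    · cases hε : ε j <;> simp [fl, step, hε, hj]
  have a2 : ∀ s : Dir d, ((opp s).1, xor (opp s).2 (ε (opp s).1)) = opp (s.1, xor s.2 (ε s.1)) := by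
    intro s
    obtain ⟨i, b⟩ := s
    cases b <;> cases hε : ε i <;> simp [opp, hε]
  have c3 : ∀ s : Dir d, ((s.1, xor s.2 (ε s.1)).1,
      xor (s.1, xor s.2 (ε s.1)).2 (ε (s.1, xor s.2 (ε s.1)).1)) = s := by
    intro s
    obtain ⟨i, b⟩ := s
    cases b <;> cases hε : ε i <;> simp [hε]
  refine sym_tau p h0 h1 (fl ε) (fl ε) (fun s => (s.1, xor s.2 (ε s.1)))
    (fun s => (s.1, xor s.2 (ε s.1))) a1 a2 a1 a2 (fl_fl ε) (fl_fl ε) c3 c3 ?_ x
  funext j
  cases hε : ε j <;> simp [fl, hε]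

theorem tau_pm (p : ℝ) (h0 : 0 ≤ p) (h1 : p ≤ 1) (σ : Equiv.Perm (Fin d)) (x : V d) :
    tau d p (pm σ x) = tau d p x := by
  have a1 : ∀ (τ : Equiv.Perm (Fin d)) (x : V d) (s : Dir d),
      pm τ (x + step s) = pm τ x + step (τ.symm s.1, s.2) := by
    intro τ x s
    funext j
    show x (τ j) + step s (τ j) = x (τ j) + step (τ.symm s.1, s.2) j
    congr 1
    unfold step
    by_cases hj : τ j = s.1
    · have hj2 : j = τ.symm s.1 := by rw [← hj, Equiv.symm_apply_apply]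
      rw [hj2, Equiv.apply_symm_apply]
      simp
    · have hj2 : j ≠ τ.symm s.1 := by
        rintro rfl
        exact hj (Equiv.apply_symm_apply _ _)
      rw [Pi.single_eq_of_ne hj, Pi.single_eq_of_ne hj2]
  refine sym_tau p h0 h1 (pm σ) (pm σ.symm) (fun s => (σ.symm s.1, s.2))
    (fun s => (σ.symm.symm s.1, s.2)) (a1 σ) (fun s => rfl) (a1 σ.symm) (fun s => rfl) ?_ ?_ ?_ ?_ ?_ x
  · intro y
    funext i
    simp [pm]
  · intro y
    funext i
    simp [pm]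
  · intro s
    simp
  · intro s
    simp
  · funext i
    rfl

end H15LE
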